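import Pool.Agent.helper26.AP.SpecQ

set_option autoImplicit false

/-!
# Row ap:QS1 (MP_16912e_nt): square factors `q²`, `w < q ≤ N^c`, `q ∤ z`
-/

namespace Pool.Agent.AP

open Finset NumberField Pool.Agent.helper3.FT Pool.Agent.helper47.RA Pool.Agent.T5

/-- the sum over the pairs `(r, q)` -/
theorem QS1_sum (hQSM : QSM_stmt) (w : ℕ) (hw : 1 ≤ w) (R X W : ℝ) (hR : 0 ≤ R) (hX : 0 ≤ X) (hW : 0 ≤ W) :
    ∑ i ∈ (PP w).divisors ×ˢ ((Ioc w ⌊R⌋₊).filter Nat.Prime),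
      (X * (1 / (i.1 : ℝ) ^ 2) * (1 / (i.2 : ℝ) ^ 2) + W * (1 / (i.1 : ℝ) ^ 2)) ≤ 2 * X / w + 2 * W * R := by
  obtain ⟨h1, -, -, -, h5, h6⟩ := hQSM
  have hw0 : (0 : ℝ) < w := by exact_mod_cast hw
  rw [Finset.sum_product]
  have hin : ∀ r ∈ (PP w).divisors, ∑ q ∈ (Ioc w ⌊R⌋₊).filter Nat.Prime,
      (X * (1 / (r : ℝ) ^ 2) * (1 / (q : ℝ) ^ 2) + W * (1 / (r : ℝ) ^ 2)) ≤
      (X / w + W * R) * (1 / (r : ℝ) ^ 2) := by
    intro r _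
    have ha : (0 : ℝ) ≤ 1 / (r : ℝ) ^ 2 := by positivity
    have hb : ∑ q ∈ (Ioc w ⌊R⌋₊).filter Nat.Prime, 1 / (q : ℝ) ^ 2 ≤ 1 / (w : ℝ) :=
      (Finset.sum_le_sum_of_subset_of_nonneg (Finset.filter_subset _ _) fun _ _ _ => by positivity).trans
        (h1 w ⌊R⌋₊ hw)
    have hc : ∑ _q ∈ (Ioc w ⌊R⌋₊).filter Nat.Prime, (1 : ℝ) ≤ R :=
      (Finset.sum_le_sum_of_subset_of_nonneg (Finset.filter_subset _ _) fun _ _ _ => zero_le_one).trans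
        (h6 w R hR)
    have e : ∀ q ∈ (Ioc w ⌊R⌋₊).filter Nat.Prime,
        X * (1 / (r : ℝ) ^ 2) * (1 / (q : ℝ) ^ 2) + W * (1 / (r : ℝ) ^ 2) =
        X * (1 / (r : ℝ) ^ 2) * (1 / (q : ℝ) ^ 2) + W * (1 / (r : ℝ) ^ 2) * 1 := fun q _ => by rw [mul_one]
    rw [Finset.sum_congr rfl e, Finset.sum_add_distrib, ← Finset.mul_sum, ← Finset.mul_sum]
    calc X * (1 / (r : ℝ) ^ 2) * ∑ q ∈ (Ioc w ⌊R⌋₊).filter Nat.Prime, 1 / (q : ℝ) ^ 2 +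
        W * (1 / (r : ℝ) ^ 2) * ∑ _q ∈ (Ioc w ⌊R⌋₊).filter Nat.Prime, (1 : ℝ)
        ≤ X * (1 / (r : ℝ) ^ 2) * (1 / (w : ℝ)) + W * (1 / (r : ℝ) ^ 2) * R :=
          add_le_add (mul_le_mul_of_nonneg_left hb (by positivity)) (mul_le_mul_of_nonneg_left hc (by positivity))
      _ = (X / w + W * R) * (1 / (r : ℝ) ^ 2) := by ring
  calc ∑ r ∈ (PP w).divisors, ∑ q ∈ (Ioc w ⌊R⌋₊).filter Nat.Prime,
        (X * (1 / ((r, q).1 : ℝ) ^ 2) * (1 / ((r, q).2 : ℝ) ^ 2) + W * (1 / ((r, q).1 : ℝ) ^ 2))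
      ≤ ∑ r ∈ (PP w).divisors, (X / w + W * R) * (1 / (r : ℝ) ^ 2) := Finset.sum_le_sum hin
    _ = (X / w + W * R) * ∑ r ∈ (PP w).divisors, 1 / (r : ℝ) ^ 2 := by rw [Finset.mul_sum]
    _ ≤ (X / w + W * R) * 2 := mul_le_mul_of_nonneg_left (h5 w) (by positivity)
    _ = 2 * X / w + 2 * W * R := by ring

/-- `A ≤ N^a` for large `N` -/
theorem QS1_big (A a : ℝ) (ha : 0 < a) : ∃ N₀ : ℝ, 1 ≤ N₀ ∧ ∀ N : ℝ, N₀ ≤ N → A ≤ N ^ a := by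
  obtain ⟨N₀, h⟩ := Filter.eventually_atTop.1 ((tendsto_rpow_atTop ha).eventually (Filter.eventually_ge_atTop A))
  exact ⟨max 1 N₀, le_max_left _ _, fun N hN => h N ((le_max_right _ _).trans hN)⟩

theorem QS1 (hQCN : QCN_stmt) (hQSM : QSM_stmt) (hQA2 : QA2_stmt) (hQP1 : QP1_stmt) (hQP2 : QP2_stmt) :
    QS1_stmt := by
  intro p _ hp5 hM1 hM2 δ hδ
  obtain ⟨c₁, C₀, N₁, hc₁, hC₀, hMU⟩ := hM2 (δ / 2) (by positivity) (δ / 2) (by positivity)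
  refine ⟨min (δ / 4) (1 / 4), 2 * C₀, by positivity, by linarith, ?_⟩
  intro w hw ε hε
  set c : ℝ := min (δ / 4) (1 / 4) with hc
  have hc0 : 0 < c := by positivity
  have hcδ : c ≤ δ / 4 := min_le_left _ _
  have hc4 : c ≤ 1 / 4 := min_le_right _ _
  obtain ⟨N₂, hN₂1, hN₂⟩ := QEV δ 4 ε hδ hε
  obtain ⟨N₃, -, hN₃⟩ := QS1_big (PP w) c₁ hc₁
  obtain ⟨N₄, -, hN₄⟩ := QS1_big (PP w) (δ / 2) (by positivity)
  refine ⟨max (max N₁ N₂) (max (max N₃ N₄) 4), fun N Y hN hY1 hY2 => ?_⟩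
  have hNN₁ : N₁ ≤ N := (le_max_left _ _).trans ((le_max_left _ _).trans hN)
  have hNN₂ : N₂ ≤ N := (le_max_right _ _).trans ((le_max_left _ _).trans hN)
  have hNN₃ : N₃ ≤ N := (le_max_left _ _).trans ((le_max_left _ _).trans ((le_max_right _ _).trans hN))
  have hNN₄ : N₄ ≤ N := (le_max_right _ _).trans ((le_max_left _ _).trans ((le_max_right _ _).trans hN))
  have hN4 : 4 ≤ N := (le_max_right _ _).trans ((le_max_right _ _).trans hN)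
  have hN1 : 1 ≤ N := by linarith
  have hN0 : 0 < N := by linarith
  obtain ⟨hY, -, hY25, hsq, hr⟩ := hQP2 p δ N Y hp5 hδ hN1 hY1 hY2
  have hY0 : 0 < Y := by linarith
  have hcR : (0 : ℝ) ≤ N ^ c := by positivity
  have hcN : N ^ c ≤ N := by
    calc N ^ c ≤ N ^ (1 : ℝ) := Real.rpow_le_rpow_of_exponent_le hN1 (by linarith)
      _ = N := Real.rpow_one N
  have hhalf : N ^ (1 / 2 : ℝ) = √N := (Real.sqrt_eq_rpow N).symm
  -- the divisors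
  have hdiv : ∀ r ∈ (PP w).divisors, 1 ≤ r ∧ (r : ℝ) ≤ PP w := by
    intro r hr'
    have h1 := Nat.mem_divisors.1 hr'
    exact ⟨Nat.pos_of_mem_divisors hr', by exact_mod_cast Nat.divisor_le hr'⟩
  -- the bound for one pair
  set B : ℕ × ℕ → ℝ := fun i => C₀ * (Y * √N) * (1 / (i.1 : ℝ) ^ 2) * (1 / (i.2 : ℝ) ^ 2) +
    N ^ (δ / 2) * (2 * Y * N ^ (1 / 2 - 2 * δ)) * (1 / (i.1 : ℝ) ^ 2) with hB
  have key := hQCN Q4 (ℕ × ℕ × ℤ) (ℕ × ℕ)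
    {t : Q4 | Bas p N Y t ∧ t.1 ∣ PP w ∧
      ∃ q : ℕ, q.Prime ∧ w < q ∧ ¬ q ∣ t.1 ∧ (q : ℝ) ≤ N ^ c ∧ ¬ q ∣ t.2.1 ∧ (q : ℤ) ^ 2 ∣ dp p t}
    ((PP w).divisors ×ˢ ((Ioc w ⌊N ^ c⌋₊).filter Nat.Prime))
    (fun i => {t : ℕ × ℕ × ℤ | MS p N i.1 i.1 i.2 (Y / i.1) t})
    (fun i t => (i.1, t.1, t.2.1, t.2.2)) B ?_ ?_
  · refine key.2.trans ?_
    have h1 := QS1_sum hQSM w (by omega) (N ^ c) (C₀ * (Y * √N)) (N ^ (δ / 2) * (2 * Y * N ^ (1 / 2 - 2 * δ)))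
      hcR (by positivity) (by positivity)
    refine h1.trans ?_
    have h2 : 2 * (N ^ (δ / 2) * (2 * Y * N ^ (1 / 2 - 2 * δ))) * N ^ c ≤ 4 * N ^ (-δ) * (Y * √N) := by
      have h3 : N ^ (δ / 2) * N ^ (1 / 2 - 2 * δ) * N ^ c ≤ N ^ (-δ) * √N := by
        rw [← hhalf, ← Real.rpow_add hN0, ← Real.rpow_add hN0, ← Real.rpow_add hN0]
        exact Real.rpow_le_rpow_of_exponent_le hN1 (by linarith)
      calc 2 * (N ^ (δ / 2) * (2 * Y * N ^ (1 / 2 - 2 * δ))) * N ^ c =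
          4 * Y * (N ^ (δ / 2) * N ^ (1 / 2 - 2 * δ) * N ^ c) := by ring
        _ ≤ 4 * Y * (N ^ (-δ) * √N) := mul_le_mul_of_nonneg_left h3 (by positivity)
        _ = 4 * N ^ (-δ) * (Y * √N) := by ring
    have h4 : 4 * N ^ (-δ) * (Y * √N) ≤ ε * (Y * √N) :=
      mul_le_mul_of_nonneg_right (hN₂ N hNN₂) (by positivity)
    calc 2 * (C₀ * (Y * √N)) / w + 2 * (N ^ (δ / 2) * (2 * Y * N ^ (1 / 2 - 2 * δ))) * N ^ c
        ≤ 2 * (C₀ * (Y * √N)) / w + ε * (Y * √N) := by linarith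
      _ = (2 * C₀ / w + ε) * (Y * √N) := by ring
  · -- finiteness and the bound
    rintro ⟨r, q⟩ hi
    rw [Finset.mem_product, Finset.mem_filter, Finset.mem_Ioc] at hi
    obtain ⟨hi1, ⟨hi2, hi3⟩, hi4⟩ := hi
    simp only at hi1 hi2 hi3 hi4
    obtain ⟨hr1, hr2⟩ := hdiv r hi1
    have hr0 : (0 : ℝ) < r := by exact_mod_cast hr1
    have hq0 : (0 : ℝ) < q := by exact_mod_cast hi4.pos
    obtain ⟨g1, g2, g3, g4, g5⟩ := hr r hr1 (hr2.trans (hN₄ N hNN₄))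
    have hqN : (q : ℝ) ≤ N := ((Nat.le_floor_iff hcR).1 hi3).trans hcN
    have hZ1 : 1 ≤ Y / r := (Real.one_le_rpow hN1 (by positivity)).trans g2
    obtain ⟨Cf, hCf, hfin⟩ := hM1 1 one_pos
    have hVN : VV p N r (Y / r) ≤ N := by
      refine g5.trans ?_
      have h5 : N ^ (1 / 2 - 2 * δ) ≤ √N := by
        rw [← hhalf]
        exact Real.rpow_le_rpow_of_exponent_le hN1 (by linarith)
      have h6 : 2 ≤ √N := by
        rw [Real.le_sqrt (by norm_num) hN0.le]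
        linarith
      calc 2 * N ^ (1 / 2 - 2 * δ) ≤ √N * √N := mul_le_mul h6 h5 (by positivity) (by positivity)
        _ = N := Real.mul_self_sqrt hN0.le
    refine ⟨(hfin N (Y / r) r r q hN1 hZ1 hr1 hr1 hi4.one_lt.le (dvd_refl r)).1, ?_⟩
    refine (hMU N (Y / r) r r q hNN₁ g2 g3 hr1 (hr2.trans (hN₃ N hNN₃)) hr1 (dvd_refl r) (Or.inr hi4) hqN
      g4 hVN).trans ?_
    have h7 := (hQP1 p N Y r q hp5 hN0 hY0 hr1 hi4.one_lt.le).1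
    have h8 : Y / r * VV p N r (Y / r) ≤ 2 * Y * N ^ (1 / 2 - 2 * δ) * (1 / (r : ℝ) ^ 2) := by
      calc Y / r * VV p N r (Y / r) ≤ Y / r * (2 * √(Y ^ p / N) / r) :=
            mul_le_mul_of_nonneg_left h7 (by positivity)
        _ ≤ Y / r * (2 * N ^ (1 / 2 - 2 * δ) / r) := by
            refine mul_le_mul_of_nonneg_left ?_ (by positivity)
            exact div_le_div_of_nonneg_right (by linarith) hr0.le
        _ = 2 * Y * N ^ (1 / 2 - 2 * δ) * (1 / (r : ℝ) ^ 2) := by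
            field_simp
    have h9 : C₀ * (Y / r * √N / (r * (q : ℝ) ^ 2)) = C₀ * (Y * √N) * (1 / (r : ℝ) ^ 2) * (1 / (q : ℝ) ^ 2) := by
      field_simp
    rw [h9, hB]
    simp only
    have h10 := mul_le_mul_of_nonneg_left h8 (Real.rpow_nonneg hN0.le (δ / 2))
    linarith
  · -- the covering
    rintro ⟨r, z, y, x⟩ ⟨hbas, hrP, q, hq, hwq, hqr, hqc, hqz, hqd⟩
    simp only at hrP hqr hqc hqz hqd
    have hP0 : PP w ≠ 0 := by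
      unfold PP
      refine Finset.prod_ne_zero_iff.2 fun q' hq' => ?_
      unfold pr at hq'
      exact (Finset.mem_filter.1 hq').2.ne_zero
    refine ⟨(r, q), ?_, (z, y, x), ?_, rfl⟩
    · rw [Finset.mem_product, Finset.mem_filter, Finset.mem_Ioc]
      exact ⟨Nat.mem_divisors.2 ⟨hrP, hP0⟩, ⟨hwq, Nat.le_floor hqc⟩, hq⟩
    · refine hQA2 p N Y r z y q x hp5 hbas hq ?_ hqd
      intro hd
      rcases hq.dvd_mul.1 hd with h | h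
      · exact hqr h
      · exact hqz h

end Pool.Agent.AP
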