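import Pool.Agent.helper94.AP.SpecB

/-!
# Row ap:PVC (MP_16912e_nt): Pólya-Vinogradov in progressions with a coprimality condition
-/

set_option autoImplicit false

namespace Pool.Agent.AP

open Finset Pool.Agent.helper3.FT

theorem PVC_jac_add (d : ℕ) (x : ℤ) : jacobiSym (x + d) d = jacobiSym x d := by
  rw [jacobiSym.mod_left (x + d), Int.add_emod_right, ← jacobiSym.mod_left]

theorem PVC_PV (hPVA : PVA_stmt) (hPVB : PVB_stmt) : PV_stmt := by
  intro d hd hsq hd2 A A'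
  have hd1 : 1 ≤ d := by omega
  have h0 : ∑ x ∈ range d, ((jacobiSym (x : ℤ) d : ℤ) : ℂ) = 0 := by
    have h1 := (hPVA d hd hsq hd1 0).2 (by
      rw [isCoprime_zero_left]
      intro hu
      rw [Int.isUnit_iff] at hu
      omega)
    refine (Finset.sum_congr rfl fun x _ => ?_).trans h1
    have h2 : e (((0 : ℤ) : ℝ) * x / d) = 1 := by
      unfold e
      rw [Int.cast_zero, zero_mul, zero_div, Complex.ofReal_zero, mul_zero, Complex.exp_zero]
    rw [h2, mul_one]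
  have h1 := hPVB d (fun x => ((jacobiSym x d : ℤ) : ℂ)) (√(d : ℝ)) hd1 (Real.sqrt_nonneg _)
    (fun x => by
      show ((jacobiSym (x + d) d : ℤ) : ℂ) = _
      rw [PVC_jac_add])
    (fun h => (hPVA d hd hsq hd1 h).1) h0 A A'
  rw [← Int.cast_sum] at h1
  rw [Complex.norm_intCast] at h1
  exact h1

/-- the sum over a progression modulo `M` prime to `d` -/
theorem PVC_ap (hPV : PV_stmt) {d M m z₀ Z₁ Z₂ : ℕ} (hd : Odd d) (hsq : Squarefree d) (hd2 : 2 ≤ d)
    (hM : 1 ≤ M) (hMd : Nat.Coprime M d) :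
    |((∑ z ∈ (Ioc Z₁ Z₂).filter (fun z => z ≡ z₀ [MOD M]), jacobiSym ((m * z : ℕ) : ℤ) d : ℤ) : ℝ)| ≤
      √(d : ℝ) * (1 + Real.log d) := by
  -- an inverse of `M`
  obtain ⟨c, hc⟩ : ∃ c : ℤ, (M : ℤ) * c ≡ 1 [ZMOD d] := by
    have h1 : IsCoprime (M : ℤ) (d : ℤ) := Nat.isCoprime_iff_coprime.2 hMd
    obtain ⟨u, v, huv⟩ := h1
    refine ⟨u, ?_⟩
    rw [← huv, mul_comm]
    exact (Int.modEq_iff_dvd.2 ⟨v, by ring⟩)
  have hM' : (0 : ℤ) < M := by exact_mod_cast hM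
  have hterm : ∀ t : ℤ, jacobiSym ((m : ℤ) * ((z₀ : ℤ) + M * t)) d =
      jacobiSym ((m : ℤ) * M) d * jacobiSym (t + c * z₀) d := by
    intro t
    rw [← jacobiSym.mul_left]
    have h2 : (m : ℤ) * ((z₀ : ℤ) + M * t) ≡ (m : ℤ) * M * (t + c * z₀) [ZMOD d] := by
      have h3 : (m : ℤ) * M * (t + c * z₀) = m * ((M * c) * z₀ + M * t) := by ring
      rw [h3]
      refine Int.ModEq.mul_left _ (Int.ModEq.add_right _ ?_)
      have h4 := (hc.mul_right (z₀ : ℤ)).symm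
      rwa [one_mul] at h4
    rw [jacobiSym.mod_left, h2, ← jacobiSym.mod_left]
  set B₁ : ℤ := ((Z₁ : ℤ) - z₀) / M with hB₁
  set B₂ : ℤ := ((Z₂ : ℤ) - z₀) / M with hB₂
  have hsum : ∑ z ∈ (Ioc Z₁ Z₂).filter (fun z => z ≡ z₀ [MOD M]), jacobiSym ((m * z : ℕ) : ℤ) d =
      jacobiSym ((m : ℤ) * M) d * ∑ x ∈ Ioc (B₁ + c * z₀) (B₂ + c * z₀), jacobiSym x d := by
    rw [Finset.mul_sum]
    refine Finset.sum_nbij' (fun z : ℕ => ((z : ℤ) - z₀) / M + c * z₀)
      (fun x : ℤ => ((z₀ : ℤ) + M * (x - c * z₀)).toNat) ?_ ?_ ?_ ?_ ?_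
    · intro z hz
      rw [mem_filter, mem_Ioc] at hz
      obtain ⟨⟨hz1, hz2⟩, hz3⟩ := hz
      have h5 : (M : ℤ) ∣ (z : ℤ) - z₀ := (Int.natCast_modEq_iff.2 hz3).symm.dvd
      obtain ⟨t, ht⟩ := h5
      have h6 : ((z : ℤ) - z₀) / M = t := by rw [ht, Int.mul_ediv_cancel_left _ hM'.ne']
      rw [mem_Ioc]
      show B₁ + c * z₀ < ((z : ℤ) - z₀) / M + c * z₀ ∧ ((z : ℤ) - z₀) / M + c * z₀ ≤ B₂ + c * z₀
      rw [h6]
      have h7 : B₁ < t := by
        rw [hB₁]
        apply Int.ediv_lt_of_lt_mul hM'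
        rw [mul_comm, ← ht]
        have : (Z₁ : ℤ) < z := by exact_mod_cast hz1
        omega
      have h8 : t ≤ B₂ := by
        rw [hB₂]
        apply Int.le_ediv_of_mul_le hM'
        rw [mul_comm, ← ht]
        have : (z : ℤ) ≤ Z₂ := by exact_mod_cast hz2
        omega
      omega
    · intro x hx
      rw [mem_Ioc] at hx
      have h7 : B₁ < x - c * z₀ := by omega
      have h8 : x - c * z₀ ≤ B₂ := by omega
      set t := x - c * z₀ with ht
      have h9 : (Z₁ : ℤ) - z₀ < M * t := by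
        have := Int.lt_mul_of_ediv_lt hM' h7
        rwa [mul_comm] at this
      have h10 : (M : ℤ) * t ≤ (Z₂ : ℤ) - z₀ := by
        have := Int.mul_le_of_le_ediv hM' h8
        rwa [mul_comm] at this
      have hpos : 0 ≤ (z₀ : ℤ) + M * t := by
        have : (0 : ℤ) ≤ Z₁ := by positivity
        omega
      rw [mem_filter, mem_Ioc]
      have hcast : ((((z₀ : ℤ) + M * t).toNat : ℕ) : ℤ) = z₀ + M * t := Int.toNat_of_nonneg hpos
      refine ⟨⟨?_, ?_⟩, ?_⟩
      · have : (Z₁ : ℤ) < ((((z₀ : ℤ) + M * t).toNat : ℕ) : ℤ) := by rw [hcast]; omega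
        exact_mod_cast this
      · have : ((((z₀ : ℤ) + M * t).toNat : ℕ) : ℤ) ≤ Z₂ := by rw [hcast]; omega
        exact_mod_cast this
      · rw [← Int.natCast_modEq_iff, hcast]
        exact (Int.modEq_iff_dvd.2 ⟨-t, by ring⟩)
    · intro z hz
      rw [mem_filter, mem_Ioc] at hz
      obtain ⟨⟨hz1, hz2⟩, hz3⟩ := hz
      have h5 : (M : ℤ) ∣ (z : ℤ) - z₀ := (Int.natCast_modEq_iff.2 hz3).symm.dvd
      obtain ⟨t, ht⟩ := h5
      show ((z₀ : ℤ) + M * (((z : ℤ) - z₀) / M + c * z₀ - c * z₀)).toNat = z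
      rw [ht, Int.mul_ediv_cancel_left _ hM'.ne', add_sub_cancel_right, ← ht]
      have : (z₀ : ℤ) + (z - z₀) = z := by ring
      rw [this, Int.toNat_natCast]
    · intro x hx
      rw [mem_Ioc] at hx
      have h7 : B₁ < x - c * z₀ := by omega
      have h9 : (Z₁ : ℤ) - z₀ < M * (x - c * z₀) := by
        have := Int.lt_mul_of_ediv_lt hM' h7
        rwa [mul_comm] at this
      have hpos : 0 ≤ (z₀ : ℤ) + M * (x - c * z₀) := by
        have : (0 : ℤ) ≤ Z₁ := by positivity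
        omega
      show (((((z₀ : ℤ) + M * (x - c * z₀)).toNat : ℕ) : ℤ) - z₀) / M + c * z₀ = x
      rw [Int.toNat_of_nonneg hpos, add_sub_cancel_left, Int.mul_ediv_cancel_left _ hM'.ne']
      ring
    · intro z hz
      rw [mem_filter, mem_Ioc] at hz
      obtain ⟨⟨hz1, hz2⟩, hz3⟩ := hz
      have h5 : (M : ℤ) ∣ (z : ℤ) - z₀ := (Int.natCast_modEq_iff.2 hz3).symm.dvd
      obtain ⟨t, ht⟩ := h5
      show jacobiSym ((m * z : ℕ) : ℤ) d =
        jacobiSym ((m : ℤ) * M) d * jacobiSym (((z : ℤ) - z₀) / M + c * z₀) d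
      rw [ht, Int.mul_ediv_cancel_left _ hM'.ne', ← hterm t]
      have h11 : ((m * z : ℕ) : ℤ) = (m : ℤ) * ((z₀ : ℤ) + M * t) := by
        rw [← ht]
        push_cast
        ring
      rw [h11]
  rw [hsum, Int.cast_mul, abs_mul]
  have h12 : |((jacobiSym ((m : ℤ) * M) d : ℤ) : ℝ)| ≤ 1 := by
    rcases jacobiSym.trichotomy ((m : ℤ) * M) d with h | h | h <;> rw [h] <;> norm_num
  have h13 := hPV d hd hsq hd2 (B₁ + c * z₀) (B₂ + c * z₀)
  calc |((jacobiSym ((m : ℤ) * M) d : ℤ) : ℝ)| *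
        |((∑ x ∈ Ioc (B₁ + c * z₀) (B₂ + c * z₀), jacobiSym x d : ℤ) : ℝ)|
      ≤ 1 * (√(d : ℝ) * (1 + Real.log d)) :=
        mul_le_mul h12 h13 (abs_nonneg _) zero_le_one
    _ = _ := one_mul _

theorem PVC_nonneg {d : ℕ} (hd2 : 2 ≤ d) : 0 ≤ √(d : ℝ) * (1 + Real.log d) := by
  have h1 : (1 : ℝ) ≤ d := by exact_mod_cast (by omega : 1 ≤ d)
  have h2 : 0 ≤ Real.log d := Real.log_nonneg h1
  positivity

/-- the sum over the multiples of `f` in a progression -/
theorem PVC_dvd (hPV : PV_stmt) {d e₀ f m a Z₁ Z₂ : ℕ} (hd : Odd d) (hsq : Squarefree d) (hd2 : 2 ≤ d)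
    (he : 1 ≤ e₀) (hf : 1 ≤ f) (hde : Nat.Coprime d e₀) (hfe : Nat.Coprime f e₀) :
    |((∑ z ∈ (Ioc Z₁ Z₂).filter (fun z => z ≡ a [MOD e₀]),
      if f ∣ z then jacobiSym ((m * z : ℕ) : ℤ) d else 0 : ℤ) : ℝ)| ≤ √(d : ℝ) * (1 + Real.log d) := by
  by_cases hfd : Nat.Coprime f d
  · set z₀ : ℕ := (Nat.chineseRemainder hfe 0 a : ℕ) with hz₀
    have hz0 := (Nat.chineseRemainder hfe 0 a).2
    have h1 : ∑ z ∈ (Ioc Z₁ Z₂).filter (fun z => z ≡ a [MOD e₀]),
        (if f ∣ z then jacobiSym ((m * z : ℕ) : ℤ) d else 0) =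
        ∑ z ∈ (Ioc Z₁ Z₂).filter (fun z => z ≡ z₀ [MOD (f * e₀)]), jacobiSym ((m * z : ℕ) : ℤ) d := by
      rw [← Finset.sum_filter, Finset.filter_filter]
      refine Finset.sum_congr ?_ fun _ _ => rfl
      refine Finset.filter_congr fun z _ => ?_
      rw [← Nat.modEq_and_modEq_iff_modEq_mul hfe]
      constructor
      · rintro ⟨h2, h3⟩
        exact ⟨((Nat.modEq_zero_iff_dvd.2 h3).trans hz0.1.symm), h2.trans hz0.2.symm⟩
      · rintro ⟨h2, h3⟩
        exact ⟨h3.trans hz0.2, Nat.modEq_zero_iff_dvd.1 (h2.trans hz0.1)⟩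
    rw [h1]
    exact PVC_ap hPV hd hsq hd2 (Nat.mul_pos hf he) (Nat.Coprime.mul_left hfd hde.symm)
  · have h1 : ∑ z ∈ (Ioc Z₁ Z₂).filter (fun z => z ≡ a [MOD e₀]),
        (if f ∣ z then jacobiSym ((m * z : ℕ) : ℤ) d else 0) = 0 := by
      refine Finset.sum_eq_zero fun z _ => ?_
      split_ifs with hz
      · have : NeZero d := ⟨by omega⟩
        rw [jacobiSym.eq_zero_iff_not_coprime]
        intro h2
        rw [Int.gcd_natCast_natCast] at h2
        exact hfd (Nat.Coprime.coprime_dvd_left (hz.mul_left m) h2)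
      · rfl
    rw [h1, Int.cast_zero, abs_zero]
    exact PVC_nonneg hd2

open ArithmeticFunction ArithmeticFunction.Moebius ArithmeticFunction.zeta in
theorem PVC_mob {g z : ℕ} (hg : 1 ≤ g) :
    (if Nat.Coprime g z then (1 : ℤ) else 0) =
      ∑ f ∈ g.divisors, if f ∣ z then (ArithmeticFunction.moebius f : ℤ) else 0 := by
  have h1 : ((μ * ζ : ArithmeticFunction ℤ)) (Nat.gcd g z) = (1 : ArithmeticFunction ℤ) (Nat.gcd g z) := by
    rw [moebius_mul_coe_zeta]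
  rw [coe_mul_zeta_apply, one_apply] at h1
  rw [← Finset.sum_filter]
  have h2 : g.divisors.filter (fun f => f ∣ z) = (Nat.gcd g z).divisors := by
    ext f
    rw [mem_filter, Nat.mem_divisors, Nat.mem_divisors, Nat.dvd_gcd_iff]
    have h3 : Nat.gcd g z ≠ 0 := (Nat.gcd_pos_of_pos_left z hg).ne'
    have h4 : g ≠ 0 := by omega
    tauto
  rw [h2, h1]

theorem PVC (hPVA : PVA_stmt) (hPVB : PVB_stmt) : PVC_stmt := by
  intro d e₀ g m hd hsq hd2 he hg hm hde hge a Z₁ Z₂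
  have hPV := PVC_PV hPVA hPVB
  by_cases hgm : Nat.Coprime g m
  · have h1 : ∀ z : ℕ, (if Nat.Coprime g (m * z) then jacobiSym ((m * z : ℕ) : ℤ) d else 0) =
        ∑ f ∈ g.divisors, (ArithmeticFunction.moebius f : ℤ) *
          (if f ∣ z then jacobiSym ((m * z : ℕ) : ℤ) d else 0) := by
      intro z
      have h2 : (if Nat.Coprime g (m * z) then jacobiSym ((m * z : ℕ) : ℤ) d else 0) =
          (if Nat.Coprime g z then (1 : ℤ) else 0) * jacobiSym ((m * z : ℕ) : ℤ) d := by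
        have h3 : Nat.Coprime g (m * z) ↔ Nat.Coprime g z := by
          rw [Nat.coprime_mul_iff_right]
          tauto
        by_cases h4 : Nat.Coprime g z
        · rw [if_pos (h3.2 h4), if_pos h4, one_mul]
        · rw [if_neg (fun h => h4 (h3.1 h)), if_neg h4, zero_mul]
      rw [h2, PVC_mob hg, Finset.sum_mul]
      refine Finset.sum_congr rfl fun f _ => ?_
      split_ifs
      · rfl
      · rw [zero_mul, mul_zero]
    have h5 : ∑ z ∈ (Ioc Z₁ Z₂).filter (fun z => z ≡ a [MOD e₀]),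
        (if Nat.Coprime g (m * z) then jacobiSym ((m * z : ℕ) : ℤ) d else 0) =
        ∑ f ∈ g.divisors, (ArithmeticFunction.moebius f : ℤ) *
          ∑ z ∈ (Ioc Z₁ Z₂).filter (fun z => z ≡ a [MOD e₀]),
            (if f ∣ z then jacobiSym ((m * z : ℕ) : ℤ) d else 0) := by
      rw [Finset.sum_congr rfl fun z _ => h1 z, Finset.sum_comm]
      refine Finset.sum_congr rfl fun f _ => ?_
      rw [Finset.mul_sum]
    rw [h5, Int.cast_sum]
    refine (Finset.abs_sum_le_sum_abs _ _).trans ?_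
    calc ∑ f ∈ g.divisors, |(((ArithmeticFunction.moebius f : ℤ) *
          ∑ z ∈ (Ioc Z₁ Z₂).filter (fun z => z ≡ a [MOD e₀]),
            (if f ∣ z then jacobiSym ((m * z : ℕ) : ℤ) d else 0) : ℤ) : ℝ)|
        ≤ ∑ _f ∈ g.divisors, √(d : ℝ) * (1 + Real.log d) := by
          refine Finset.sum_le_sum fun f hf => ?_
          have hf1 : f ∣ g := Nat.dvd_of_mem_divisors hf
          have hf2 : 1 ≤ f := Nat.pos_of_mem_divisors hf
          rw [Int.cast_mul, abs_mul]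
          have h6 : |((ArithmeticFunction.moebius f : ℤ) : ℝ)| ≤ 1 := by
            have := ArithmeticFunction.abs_moebius_le_one (n := f)
            exact_mod_cast this
          have h7 := PVC_dvd (m := m) (a := a) (Z₁ := Z₁) (Z₂ := Z₂) hPV hd hsq hd2 he hf2 hde
            (Nat.Coprime.coprime_dvd_left hf1 hge)
          calc |((ArithmeticFunction.moebius f : ℤ) : ℝ)| * |((∑ z ∈ (Ioc Z₁ Z₂).filter (fun z => z ≡ a [MOD e₀]),
                if f ∣ z then jacobiSym ((m * z : ℕ) : ℤ) d else 0 : ℤ) : ℝ)|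
              ≤ 1 * (√(d : ℝ) * (1 + Real.log d)) := mul_le_mul h6 h7 (abs_nonneg _) zero_le_one
            _ = _ := one_mul _
      _ = (g.divisors.card : ℝ) * (√(d : ℝ) * (1 + Real.log d)) := by
          rw [Finset.sum_const, nsmul_eq_mul]
  · have h1 : ∑ z ∈ (Ioc Z₁ Z₂).filter (fun z => z ≡ a [MOD e₀]),
        (if Nat.Coprime g (m * z) then jacobiSym ((m * z : ℕ) : ℤ) d else 0) = 0 := by
      refine Finset.sum_eq_zero fun z _ => ?_
      rw [if_neg]
      intro h2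
      exact hgm (Nat.coprime_mul_iff_right.1 h2).1
    rw [h1, Int.cast_zero, abs_zero]
    exact mul_nonneg (Nat.cast_nonneg _) (PVC_nonneg hd2)

end Pool.Agent.AP
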