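import Pool.Agent.helper82.AP.SpecF

set_option autoImplicit false

/-!
# Block F of AP (MP_16912e_nt): `F2_stmt` from its two rows
-/

namespace Pool.Agent.AP

theorem F2 (hFUB : FUB_stmt) (hFSL : FSL_stmt) : F2_stmt := fun hU =>
  ⟨⟨hFUB hU _ (by norm_num), hFUB hU _ (by norm_num)⟩, hFSL⟩

end Pool.Agent.AP
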