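import Pool.Agent.helper82.AP.SpecF
import Pool.Agent.helper23.T5.SC2

set_option autoImplicit false

/-!
# Row ap:FC2 (MP_16912e_nt): the sum over the discriminants
-/

namespace Pool.Agent.AP

open Finset NumberField Pool.Agent.helper3.FT Pool.Agent.helper47.RA Pool.Agent.T5

theorem FC2 (hFC1 : FC1_stmt) (hSFA : SFA_stmt) : FC2_stmt := by
  classical
  intro p h hh N Y I I' J hN hY hI hJ _ hI'
  have hfld : ∀ D : ℤ, IsFund D → D < 0 →
      (h D Y : ℝ) ≤ ∑ j ∈ range J, (cAp p D (Y / 2 ^ j) : ℝ) ∧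
      (4 * Y ^ 2 < -(D : ℝ) → (h D Y : ℝ) = ∑ j ∈ range J, (cAp p D (Y / 2 ^ j) : ℝ)) := by
    intro D hD hD0
    have hne : Nonempty (Fld D) := hSFA.2.2 D hD hD0
    have hc : ∀ y : ℝ, cAp p D y = (IAp p hne.some.K y).ncard := by
      intro y
      unfold cAp
      rw [dif_pos hne]
    have h1 := hh hne.some.K hne.some.fin Y
    rw [hne.some.dK] at h1
    have h2 := hFC1 p hne.some.K hne.some.Q hne.some.fin (by rw [hne.some.hD]; exact hD0) Y J hY hJ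
    rw [hne.some.hD, ← h1] at h2
    simp only [hc]
    constructor
    · exact_mod_cast h2.1
    · intro h3
      exact_mod_cast h2.2 h3
  have hmem : ∀ D : ℤ, D ∈ (Icc (-⌊N⌋) (-1)).filter IsFund ↔ (-⌊N⌋ ≤ D ∧ D ≤ -1) ∧ IsFund D := by
    intro D
    rw [Finset.mem_filter, Finset.mem_Icc]
  have hAA : ∀ i j : ℕ, AA p (N / 2 ^ i) (Y / 2 ^ j) = ∑ D ∈ DN (N / 2 ^ i), (cAp p D (Y / 2 ^ j) : ℝ) := fun _ _ => rfl
  have hmain := SC2_aux N Y I I' hN hI hI' ((Icc (-⌊N⌋) (-1)).filter IsFund) hmem (fun D => (h D Y : ℝ))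
    (fun D => ∑ j ∈ range J, (cAp p D (Y / 2 ^ j) : ℝ)) (fun D _ => Nat.cast_nonneg _)
    (fun D hD => (hfld D ((hmem D).mp hD).2 (by have := ((hmem D).mp hD).1.2; omega)).1)
    (fun D hD => (hfld D ((hmem D).mp hD).2 (by have := ((hmem D).mp hD).1.2; omega)).2)
  have hcomm : ∀ i : ℕ, ∑ j ∈ range J, ∑ D ∈ DN (N / 2 ^ i), (cAp p D (Y / 2 ^ j) : ℝ) =
      ∑ D ∈ DN (N / 2 ^ i), ∑ j ∈ range J, (cAp p D (Y / 2 ^ j) : ℝ) := fun i => Finset.sum_comm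
  simp only [hAA, hcomm]
  exact hmain

end Pool.Agent.AP
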