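import Pool.Agent.helper82.AP.FC1
import Pool.Agent.helper82.AP.FC2
import Pool.Agent.helper82.AP.F2
import Pool.Agent.helper68.AP.FC3
import Pool.Agent.helper68.AP.FUB
import Pool.Agent.helper68.AP.FSL
import Pool.Agent.helper68.AP.F1
import Pool.Agent.helper5.T5.SFA

set_option autoImplicit false

/-!
# AP (MP_16912e_nt): block F, closed theorems
-/

namespace Pool.Agent.AP

theorem fF1 : F1_stmt := F1 (FC2 FC1 Pool.Agent.T5.SFA) FC3

theorem fF2 : F2_stmt := F2 FUB FSL

end Pool.Agent.AP
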