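import Pool.Agent.helper82.AP.SpecF
import Pool.Agent.helper23.T5.SC1

set_option autoImplicit false

/-!
# Row ap:FC1 (MP_16912e_nt): classes of order `p` and primitive ideals
-/

namespace Pool.Agent.AP

open Finset NumberField Pool.Agent.helper3.FT Pool.Agent.helper47.RA Pool.Agent.T5
open scoped nonZeroDivisors

/-- primitive ideals of order `p` with norm in `(A, Y]` -/
def FC1_S (p : ℕ) (K : Type) [Field K] [NumberField K] (A Y : ℝ) : Set (Ideal (𝓞 K)) :=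
  {a | a ≠ ⊥ ∧ Prim a ∧ (a ^ p).IsPrincipal ∧ ¬ a.IsPrincipal ∧ A < (Ideal.absNorm a : ℝ) ∧ (Ideal.absNorm a : ℝ) ≤ Y}

section
variable {K : Type} [Field K] [NumberField K]

theorem FC1_fin (p : ℕ) (A Y : ℝ) : (FC1_S p K A Y).Finite := by
  refine (Ideal.finite_setOfPred_absNorm_le (S := 𝓞 K) ⌊Y⌋₊).subset ?_
  rintro a ⟨-, -, -, -, -, h⟩
  exact Nat.le_floor h

theorem FC1_card (p : ℕ) (Y : ℝ) (hY : 0 < Y) (J : ℕ) : (FC1_S p K (Y / 2 ^ J) Y).ncard = ∑ j ∈ range J, (IAp p K (Y / 2 ^ j)).ncard := by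
  induction J with
  | zero =>
    have : FC1_S p K (Y / 2 ^ 0) Y = ∅ := by
      ext a
      simp only [Set.mem_empty_iff_false, iff_false]
      rintro ⟨-, -, -, -, h1, h2⟩
      rw [pow_zero, div_one] at h1
      linarith
    rw [this]
    simp
  | succ J ih =>
    rw [sum_range_succ, ← ih]
    have h2 : (0 : ℝ) < 2 ^ J := by positivity
    have h3 : Y / 2 ^ (J + 1) = Y / 2 ^ J / 2 := by
      rw [pow_succ, div_div]
    have h4 : Y / 2 ^ J ≤ Y := div_le_self hY.le (one_le_pow₀ (by norm_num))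
    have h5 : 0 < Y / 2 ^ J := div_pos hY h2
    have hU : FC1_S p K (Y / 2 ^ (J + 1)) Y = FC1_S p K (Y / 2 ^ J) Y ∪ IAp p K (Y / 2 ^ J) := by
      ext a
      constructor
      · rintro ⟨a1, a2, a3, a4, a5, a6⟩
        rcases lt_or_ge (Y / 2 ^ J) (Ideal.absNorm a : ℝ) with h | h
        · exact Or.inl ⟨a1, a2, a3, a4, h, a6⟩
        · exact Or.inr ⟨a1, a2, a3, a4, h3 ▸ a5, h⟩
      · rintro (⟨a1, a2, a3, a4, a5, a6⟩ | ⟨a1, a2, a3, a4, a5, a6⟩)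
        · refine ⟨a1, a2, a3, a4, ?_, a6⟩
          rw [h3]
          linarith
        · refine ⟨a1, a2, a3, a4, ?_, a6.trans h4⟩
          rw [h3]
          exact a5
    have hdis : Disjoint (FC1_S p K (Y / 2 ^ J) Y) (IAp p K (Y / 2 ^ J)) := by
      rw [Set.disjoint_left]
      rintro a ⟨-, -, -, -, a5, -⟩ ⟨-, -, -, -, -, b6⟩
      linarith
    have hfin : (IAp p K (Y / 2 ^ J)).Finite := by
      refine (FC1_fin (K := K) p (Y / 2 ^ (J + 1)) Y).subset ?_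
      rw [hU]
      exact Set.subset_union_right
    rw [hU, Set.ncard_union_eq hdis (FC1_fin p _ _) hfin]

theorem FC1_image (p : ℕ) (Q : QF K) (Y : ℝ) (J : ℕ) (hJ : Y < 2 ^ J) : SC1_cl '' (FC1_S p K (Y / 2 ^ J) Y) = CLSp p K Y := by
  have h2 : (0 : ℝ) < 2 ^ J := by positivity
  have h1 : Y / 2 ^ J < 1 := (div_lt_one h2).mpr hJ
  ext c
  constructor
  · rintro ⟨a, ⟨a1, a2, a3, a4, a5, a6⟩, rfl⟩
    refine ⟨?_, ?_, ⟨a, mem_nonZeroDivisors_of_ne_zero a1⟩, (SC1_cl_eq a a1).symm, a6⟩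
    · rw [← SC1_cl_pow a a1, SC1_cl_one _ (pow_ne_zero p a1)]
      exact a3
    · rw [Ne, SC1_cl_one _ a1]
      exact a4
  · rintro ⟨h5, hne, a, rfl, haY⟩
    have ha : (a : Ideal (𝓞 K)) ≠ ⊥ := nonZeroDivisors.coe_ne_zero a
    rw [SC1_cl_eq'] at h5 hne ⊢
    obtain ⟨r, b, hr, hb, hpb, he⟩ := SC1_prim Q _ (a : Ideal (𝓞 K)) ha le_rfl
    have hcl : SC1_cl (a : Ideal (𝓞 K)) = SC1_cl b := by
      rw [he, SC1_cl_mul _ _ (SC1_span_ne r hr) hb, (SC1_cl_one _ (SC1_span_ne r hr)).mpr ⟨⟨_, rfl⟩⟩, one_mul]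
    have hnb : (Ideal.absNorm b : ℝ) ≤ Y := by
      refine le_trans ?_ haY
      have h3 : Ideal.absNorm b ≤ Ideal.absNorm (a : Ideal (𝓞 K)) := by
        rw [he, map_mul]
        exact Nat.le_mul_of_pos_left _ (Nat.pos_of_ne_zero fun h => SC1_span_ne r hr (Ideal.absNorm_eq_zero_iff.mp h))
      exact_mod_cast h3
    rw [hcl] at h5 hne ⊢
    refine ⟨b, ⟨hb, hpb, ?_, ?_, lt_of_lt_of_le h1 (SC1_norm_ge b hb), hnb⟩, rfl⟩
    · rw [← SC1_cl_one _ (pow_ne_zero p hb), SC1_cl_pow b hb]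
      exact h5
    · rw [← SC1_cl_one _ hb]
      exact hne

end

theorem FC1 : FC1_stmt := by
  intro p K _ _ Q _ _ Y J hY hJ
  rw [← FC1_card p Y hY J, ← FC1_image p Q Y J hJ]
  refine ⟨Set.ncard_image_le (FC1_fin p _ _), fun h => ?_⟩
  refine Set.InjOn.ncard_image ?_
  rintro b ⟨b1, b2, -, -, -, b6⟩ b' ⟨c1, c2, -, -, -, c6⟩ hc
  exact SC1_inj Q Y h b b' b1 c1 b2 c2 b6 c6 hc

end Pool.Agent.AP
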