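import Pool.Agent.helper95.AP.SpecL

set_option autoImplicit false

/-!
# Row ap:LCD (MP_16912e_nt): the conditions on `x` are local
-/

namespace Pool.Agent.APL

open Finset NumberField Pool.Agent.helper3.FT Pool.Agent.helper47.RA Pool.Agent.T5 Pool.Agent.AP

theorem LCD_sq (w : ℕ) : Squarefree (PP w) := by
  unfold PP
  refine Finset.squarefree_prod_of_pairwise_isCoprime (fun p hp q hq hpq => ?_) fun p hp => ?_
  · simp only [pr, Finset.coe_filter, Finset.mem_range, Set.mem_ofPred_eq] at hp hq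
    exact Nat.coprime_iff_isRelPrime.1 ((Nat.coprime_primes hp.2 hq.2).2 hpq)
  · simp only [pr, Finset.mem_filter, Finset.mem_range] at hp
    exact hp.2.squarefree

theorem LCD_mem (w q r : ℕ) (hq : q.Prime) (hr : r ∣ PP w) (h : q ∣ r) : q ∈ pr w := by
  have h2 : q ∣ PP w := dvd_trans h hr
  unfold PP at h2
  rw [hq.prime.dvd_finsetProd_iff] at h2
  obtain ⟨l, hl, h3⟩ := h2
  have hl' := hl
  simp only [pr, mem_filter, mem_range] at hl'
  rw [(Nat.prime_dvd_prime_iff_eq hq hl'.2).1 h3]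
  exact hl

/-- a divisor of a natural number is detected by the prime powers -/
theorem LCD_dvd (n : ℕ) (A : ℤ) (h : ∀ q k : ℕ, q.Prime → q ^ k ∣ n → (q : ℤ) ^ k ∣ A) : (n : ℤ) ∣ A := by
  rw [Int.natCast_dvd]
  refine (Nat.dvd_iff_prime_pow_dvd_dvd _ _).2 fun q k hq hk => ?_
  have h1 := h q k hq hk
  have h2 : ((q ^ k : ℕ) : ℤ) ∣ A := by
    push_cast
    exact h1
  rwa [Int.natCast_dvd] at h2

/-- `y² ∣ A` -/
theorem LCD_y (w y : ℕ) (hy : 1 ≤ y) (A : ℤ) :
    (y : ℤ) ^ 2 ∣ A ↔ ∀ q ∈ SS w y, (q : ℤ) ^ (2 * y.factorization q) ∣ A := by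
  constructor
  · intro h q _
    refine dvd_trans ?_ h
    have h1 : (q : ℤ) ^ y.factorization q ∣ (y : ℤ) := by exact_mod_cast Nat.ordProj_dvd y q
    have h2 := pow_dvd_pow_of_dvd h1 2
    rwa [← pow_mul, mul_comm] at h2
  · intro h
    have h1 : ((y ^ 2 : ℕ) : ℤ) ∣ A := by
      refine LCD_dvd _ _ fun q k hq hk => ?_
      rcases Nat.eq_zero_or_pos k with rfl | hk0
      · rw [pow_zero]
        exact one_dvd _
      have hy2 : y ^ 2 ≠ 0 := by positivity
      have h2 : k ≤ (y ^ 2).factorization q := (hq.pow_dvd_iff_le_factorization hy2).1 hk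
      have h3 : (y ^ 2).factorization q = 2 * y.factorization q := by
        rw [Nat.factorization_pow]
        rfl
      rw [h3] at h2
      have h4 : q ∈ SS w y := by
        unfold SS
        refine Finset.mem_union_right _ (Nat.mem_primeFactors.2 ⟨hq, ?_, by omega⟩)
        have h5 : q ∣ y ^ 2 := dvd_trans (dvd_pow_self q (by omega)) hk
        exact hq.dvd_of_dvd_pow h5
      exact dvd_trans (pow_dvd_pow _ h2) (h q h4)
    push_cast at h1
    exact h1

/-- odd squares modulo 16 -/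
theorem LCD_16 (u : ℤ) (hu : u % 2 = 1) : u ^ 2 % 16 = 1 ∨ u ^ 2 % 16 = 9 := by
  have h : u % 16 = 1 ∨ u % 16 = 3 ∨ u % 16 = 5 ∨ u % 16 = 7 ∨ u % 16 = 9 ∨ u % 16 = 11 ∨ u % 16 = 13 ∨ u % 16 = 15 := by
    omega
  rcases h with h | h | h | h | h | h | h | h <;> simp [pow_two, Int.mul_emod, h]

/-- the local condition does not change under multiplication by the square of a unit -/
theorem LCD_Lq (r q : ℕ) (hq : q.Prime) (d : ℤ) (u : ℕ) (hu : ¬ q ∣ u) : Lq r q (d * (u : ℤ) ^ 2) ↔ Lq r q d := by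
  unfold Lq
  by_cases h2 : q = 2
  · subst h2
    simp only [if_true]
    have hu2 : (u : ℤ) % 2 = 1 := by omega
    have h1 := LCD_16 u hu2
    generalize (u : ℤ) ^ 2 = s at h1
    have h3 : d * s % 16 = (d % 16) * (s % 16) % 16 := Int.mul_emod d s 16
    have h4 : d % 16 = 0 ∨ d % 16 = 1 ∨ d % 16 = 2 ∨ d % 16 = 3 ∨ d % 16 = 4 ∨ d % 16 = 5 ∨ d % 16 = 6 ∨ d % 16 = 7 ∨
        d % 16 = 8 ∨ d % 16 = 9 ∨ d % 16 = 10 ∨ d % 16 = 11 ∨ d % 16 = 12 ∨ d % 16 = 13 ∨ d % 16 = 14 ∨ d % 16 = 15 := by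
      omega
    rcases h1 with h1 | h1 <;> rw [h1] at h3 <;> (generalize d * s = e at h3 ⊢) <;> omega
  · rw [if_neg h2, if_neg h2]
    have hc : IsCoprime (q : ℤ) ((u : ℤ) ^ 2) := by
      have : Nat.Coprime q u := (hq.coprime_iff_not_dvd).2 hu
      exact (Nat.isCoprime_iff_coprime.2 this).pow_right
    have h1 : (q : ℤ) ^ 2 ∣ d * (u : ℤ) ^ 2 ↔ (q : ℤ) ^ 2 ∣ d :=
      ⟨fun h => (hc.pow_left).dvd_of_dvd_mul_right h, fun h => Dvd.dvd.mul_right h _⟩
    have h3 : (q : ℤ) ∣ d * (u : ℤ) ^ 2 ↔ (q : ℤ) ∣ d :=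
      ⟨fun h => hc.dvd_of_dvd_mul_right h, fun h => Dvd.dvd.mul_right h _⟩
    rw [h1, h3]

/-- the conditions on the discriminant -/
theorem LCD_dp (w r : ℕ) (hw : 2 ≤ w) (hr : r ∣ PP w) (d : ℤ) :
    ((r : ℤ) ∣ d ∧ ((d % 4 = 0 ∨ d % 4 = 1) ∧ ∀ q ∈ pr w, Pfund q d)) ↔ ∀ q ∈ pr w, Lq r q d := by
  have h2 : 2 ∈ pr w := by
    simp only [pr, mem_filter, mem_range]
    exact ⟨by omega, Nat.prime_two⟩
  constructor
  · rintro ⟨h1, h3, h4⟩ q hq
    have h5 := h4 q hq
    unfold Pfund at h5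
    unfold Lq
    have h6 : q ∣ r → (q : ℤ) ∣ d := fun h => dvd_trans (by exact_mod_cast h) h1
    by_cases h : q = 2
    · subst h
      rw [if_pos rfl] at h5 ⊢
      exact ⟨h3, h5.1, h5.2, fun h => by exact_mod_cast h6 h⟩
    · rw [if_neg h] at h5 ⊢
      exact ⟨h5, h6⟩
  · intro h
    have h3 := h 2 h2
    unfold Lq at h3
    rw [if_pos rfl] at h3
    refine ⟨?_, h3.1, fun q hq => ?_⟩
    · refine LCD_dvd r d fun q k hq hk => ?_
      rcases Nat.eq_zero_or_pos k with rfl | hk0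
      · rw [pow_zero]
        exact one_dvd _
      have hk1 : k = 1 := by
        by_contra hne
        have h5 : q ^ 2 ∣ r := dvd_trans (pow_dvd_pow q (by omega)) hk
        have h6 : q * q ∣ PP w := by
          rw [← pow_two]
          exact dvd_trans h5 hr
        exact hq.one_lt.ne' (Nat.isUnit_iff.1 (LCD_sq w q h6))
      subst hk1
      rw [pow_one] at hk ⊢
      have h7 := LCD_mem w q r hq hr hk
      have h8 := h q h7
      unfold Lq at h8
      by_cases h9 : q = 2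
      · subst h9
        rw [if_pos rfl] at h8
        exact_mod_cast h8.2.2.2 hk
      · rw [if_neg h9] at h8
        exact h8.2 hk
    · have h8 := h q hq
      unfold Lq at h8
      unfold Pfund
      by_cases h9 : q = 2
      · subst h9
        rw [if_pos rfl] at h8 ⊢
        exact ⟨h8.2.1, h8.2.2.1⟩
      · rw [if_neg h9] at h8 ⊢
        exact h8.1

theorem LCD : LCD_stmt := by
  intro w p r z y x hw hr hy
  set A : ℤ := (x : ℤ) ^ 2 - 4 * ((r * z ^ p : ℕ) : ℤ) with hA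
  have hnum : num p (r, z, y, (x : ℤ)) = A := by
    rw [hA]
    unfold num
    push_cast
    ring
  have hdp : dp p (r, z, y, (x : ℤ)) = A / (y : ℤ) ^ 2 := by
    unfold dp
    rw [hnum]
  have hy0 : (y : ℤ) ^ 2 ≠ 0 := by positivity
  -- if `y² ∣ A` then the local quotient is the discriminant times the square of a unit
  have hquo : (y : ℤ) ^ 2 ∣ A → ∀ q : ℕ, q.Prime → (Lq r q (A / (q : ℤ) ^ (2 * y.factorization q)) ↔ Lq r q (A / (y : ℤ) ^ 2)) := by
    intro hyA q hq
    obtain ⟨d, hd⟩ := hyA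
    have h1 : A / (y : ℤ) ^ 2 = d := by
      rw [hd]
      exact Int.mul_ediv_cancel_left d hy0
    obtain ⟨u, hu⟩ := Nat.ordProj_dvd y q
    have hqu : ¬ q ∣ u := by
      have h2 : y / q ^ y.factorization q = u := Nat.div_eq_of_eq_mul_right (pow_pos hq.pos _) hu
      rw [← h2]
      exact Nat.not_dvd_ordCompl hq (by omega)
    have hq0 : (q : ℤ) ^ (2 * y.factorization q) ≠ 0 := pow_ne_zero _ (by exact_mod_cast hq.ne_zero)
    have h3 : A / (q : ℤ) ^ (2 * y.factorization q) = d * (u : ℤ) ^ 2 := by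
      have h4 : A = (q : ℤ) ^ (2 * y.factorization q) * (d * (u : ℤ) ^ 2) := by
        rw [hd]
        have h5 : (y : ℤ) = (q : ℤ) ^ y.factorization q * (u : ℤ) := by exact_mod_cast hu
        generalize y.factorization q = v at h5 ⊢
        rw [h5]
        ring
      rw [h4]
      exact Int.mul_ediv_cancel_left _ hq0
    rw [h1, h3]
    exact LCD_Lq r q hq d u hqu
  unfold Loc
  rw [hnum, hdp]
  constructor
  · rintro ⟨h1, h2⟩ q hq
    have h3 := (LCD_y w y hy A).1 h1 q hq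
    refine ⟨h3, fun hqw => ?_⟩
    have hqp : q.Prime := by
      unfold SS at hq
      rcases Finset.mem_union.1 hq with h | h
      · simp only [pr, mem_filter, mem_range] at h
        exact h.2
      · exact (Nat.mem_primeFactors.1 h).1
    rw [hquo h1 q hqp]
    refine (LCD_dp w r hw hr _).1 h2 q ?_
    simp only [pr, mem_filter, mem_range]
    exact ⟨by omega, hqp⟩
  · intro h
    have h1 : (y : ℤ) ^ 2 ∣ A := (LCD_y w y hy A).2 fun q hq => (h q hq).1
    refine ⟨h1, (LCD_dp w r hw hr _).2 fun q hq => ?_⟩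
    have h2 := hq
    simp only [pr, mem_filter, mem_range] at h2
    rw [← hquo h1 q h2.2]
    exact (h q (Finset.mem_union_left _ hq)).2 (by omega)

end Pool.Agent.APL
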