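import Pool.Agent.helper82.AP.QS1

set_option autoImplicit false

/-!
# Row ap:QS2 (MP_16912e_nt): square factors `q²`, `w < q ≤ N^c`, `q ∣ z`
-/

namespace Pool.Agent.AP

open Finset NumberField Pool.Agent.helper3.FT Pool.Agent.helper47.RA Pool.Agent.T5

theorem QS2 (hQCN : QCN_stmt) (hQSM : QSM_stmt) (hQA3 : QA3_stmt) (hQP1 : QP1_stmt) (hQP2 : QP2_stmt) :
    QS2_stmt := by
  intro p _ hp5 hM1 hM2 δ hδ
  obtain ⟨c₁, C₀, N₁, hc₁, hC₀, hMU⟩ := hM2 (δ / 2) (by positivity) (δ / 2) (by positivity)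
  have hp0 : (0 : ℝ) < p := by
    have : 0 < p := by omega
    exact_mod_cast this
  refine ⟨min (δ / 4) (min (1 / 4) (c₁ / (2 * p))), 2 * C₀, by positivity, by linarith, ?_⟩
  intro w hw ε hε
  set c : ℝ := min (δ / 4) (min (1 / 4) (c₁ / (2 * p))) with hc
  have hc0 : 0 < c := by positivity
  have hcδ : c ≤ δ / 4 := min_le_left _ _
  have hc4 : c ≤ 1 / 4 := (min_le_right _ _).trans (min_le_left _ _)
  obtain ⟨N₂, hN₂1, hN₂⟩ := QEV δ 4 ε hδ hε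
  obtain ⟨N₄, -, hN₄⟩ := QS1_big (PP w) (δ / 4) (by positivity)
  obtain ⟨N₅, -, hN₅⟩ := QS1_big N₁ (1 / 2) (by norm_num)
  obtain ⟨N₆, -, hN₆⟩ := QS1_big 2 (2 * δ) (by positivity)
  obtain ⟨N₇, -, hN₇⟩ := QS1_big (PP w) (c₁ / p) (by positivity)
  refine ⟨max (max N₂ (max N₄ N₅)) (max (max N₆ N₇) 1), fun N Y hN hY1 hY2 => ?_⟩
  simp only [max_le_iff] at hN
  obtain ⟨⟨hNN₂, ⟨hNN₄, hNN₅⟩⟩, ⟨hNN₆, hNN₇⟩, hN1⟩ := hN
  have hN0 : 0 < N := by linarith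
  obtain ⟨hY, hYp, hY25, hsq, hr⟩ := hQP2 p δ N Y hp5 hδ hN1 hY1 hY2
  have hY0 : 0 < Y := by linarith
  have hcR : (0 : ℝ) ≤ N ^ c := by positivity
  have hhalf : N ^ (1 / 2 : ℝ) = √N := (Real.sqrt_eq_rpow N).symm
  -- the divisors
  have hdiv : ∀ r ∈ (PP w).divisors, 1 ≤ r ∧ (r : ℝ) ≤ PP w := by
    intro r hr'
    exact ⟨Nat.pos_of_mem_divisors hr', by exact_mod_cast Nat.divisor_le hr'⟩
  -- the bound for one pair
  set B : ℕ × ℕ → ℝ := fun i => C₀ * (Y * √N) * (1 / (i.1 : ℝ) ^ 2) * (1 / (i.2 : ℝ) ^ 2) +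
    N ^ (δ / 2) * (2 * Y * N ^ (1 / 2 - 2 * δ)) * (1 / (i.1 : ℝ) ^ 2) with hB
  have key := hQCN Q4 (ℕ × ℕ × ℤ) (ℕ × ℕ)
    {t : Q4 | Bas p N Y t ∧ t.1 ∣ PP w ∧
      ∃ q : ℕ, q.Prime ∧ w < q ∧ ¬ q ∣ t.1 ∧ (q : ℝ) ≤ N ^ c ∧ q ∣ t.2.1 ∧ (q : ℤ) ^ 2 ∣ dp p t}
    ((PP w).divisors ×ˢ ((Ioc w ⌊N ^ c⌋₊).filter Nat.Prime))
    (fun i => {t : ℕ × ℕ × ℤ | MS p (N / (i.2 : ℝ) ^ 2) (i.1 * i.2 ^ (p - 2)) i.1 1 (Y / ((i.1 : ℝ) * i.2)) t})
    (fun i t => (i.1, i.2 * t.1, t.2.1, (i.2 : ℤ) * t.2.2)) B ?_ ?_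
  · refine key.2.trans ?_
    have h1 := QS1_sum hQSM w (by omega) (N ^ c) (C₀ * (Y * √N)) (N ^ (δ / 2) * (2 * Y * N ^ (1 / 2 - 2 * δ)))
      hcR (by positivity) (by positivity)
    refine h1.trans ?_
    have h2 : 2 * (N ^ (δ / 2) * (2 * Y * N ^ (1 / 2 - 2 * δ))) * N ^ c ≤ 4 * N ^ (-δ) * (Y * √N) := by
      have h3 : N ^ (δ / 2) * N ^ (1 / 2 - 2 * δ) * N ^ c ≤ N ^ (-δ) * √N := by
        rw [← hhalf, ← Real.rpow_add hN0, ← Real.rpow_add hN0, ← Real.rpow_add hN0]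
        exact Real.rpow_le_rpow_of_exponent_le hN1 (by linarith)
      calc 2 * (N ^ (δ / 2) * (2 * Y * N ^ (1 / 2 - 2 * δ))) * N ^ c =
          4 * Y * (N ^ (δ / 2) * N ^ (1 / 2 - 2 * δ) * N ^ c) := by ring
        _ ≤ 4 * Y * (N ^ (-δ) * √N) := mul_le_mul_of_nonneg_left h3 (by positivity)
        _ = 4 * N ^ (-δ) * (Y * √N) := by ring
    have h4 : 4 * N ^ (-δ) * (Y * √N) ≤ ε * (Y * √N) :=
      mul_le_mul_of_nonneg_right (hN₂ N hNN₂) (by positivity)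
    calc 2 * (C₀ * (Y * √N)) / w + 2 * (N ^ (δ / 2) * (2 * Y * N ^ (1 / 2 - 2 * δ))) * N ^ c
        ≤ 2 * (C₀ * (Y * √N)) / w + ε * (Y * √N) := by linarith
      _ = (2 * C₀ / w + ε) * (Y * √N) := by ring
  · -- finiteness and the bound
    rintro ⟨r, q⟩ hi
    rw [Finset.mem_product, Finset.mem_filter, Finset.mem_Ioc] at hi
    obtain ⟨hi1, ⟨hi2, hi3⟩, hi4⟩ := hi
    simp only at hi1 hi2 hi3 hi4
    obtain ⟨hr1, hr2⟩ := hdiv r hi1
    have hr0 : (0 : ℝ) < r := by exact_mod_cast hr1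
    have hq0 : (0 : ℝ) < q := by exact_mod_cast hi4.pos
    have hq1 : (1 : ℝ) ≤ q := by exact_mod_cast hi4.one_lt.le
    have hδ42 : N ^ (δ / 4) ≤ N ^ (δ / 2) := Real.rpow_le_rpow_of_exponent_le hN1 (by linarith)
    obtain ⟨g1, g2, g3, g4, g5⟩ := hr r hr1 ((hr2.trans (hN₄ N hNN₄)).trans hδ42)
    have hqc : (q : ℝ) ≤ N ^ c := (Nat.le_floor_iff hcR).1 hi3
    -- the new level
    have hq2 : (q : ℝ) ^ 2 ≤ N ^ (1 / 2 : ℝ) := by
      calc (q : ℝ) ^ 2 ≤ (N ^ c) ^ 2 := pow_le_pow_left₀ hq0.le hqc 2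
        _ = N ^ (c * 2) := by
          rw [← Real.rpow_natCast, ← Real.rpow_mul hN0.le]
          norm_num
        _ ≤ N ^ (1 / 2 : ℝ) := Real.rpow_le_rpow_of_exponent_le hN1 (by linarith)
    have hM : N ^ (1 / 2 : ℝ) ≤ N / (q : ℝ) ^ 2 := by
      rw [le_div_iff₀ (by positivity)]
      calc N ^ (1 / 2 : ℝ) * (q : ℝ) ^ 2 ≤ N ^ (1 / 2 : ℝ) * N ^ (1 / 2 : ℝ) :=
            mul_le_mul_of_nonneg_left hq2 (by positivity)
        _ = N := by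
          rw [← Real.rpow_add hN0]
          norm_num
    have hM1' : 1 ≤ N / (q : ℝ) ^ 2 := (Real.one_le_rpow hN1 (by norm_num)).trans hM
    have hMN : N / (q : ℝ) ^ 2 ≤ N := div_le_self hN0.le (one_le_pow₀ hq1)
    -- the new `Z`
    have hrq : (r : ℝ) * q ≤ N ^ (δ / 2) := by
      calc (r : ℝ) * q ≤ N ^ (δ / 4) * N ^ c := mul_le_mul (hr2.trans (hN₄ N hNN₄)) hqc hq0.le (by positivity)
        _ ≤ N ^ (δ / 4) * N ^ (δ / 4) :=
          mul_le_mul_of_nonneg_left (Real.rpow_le_rpow_of_exponent_le hN1 hcδ) (by positivity)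
        _ = N ^ (δ / 2) := by
          rw [← Real.rpow_add hN0]
          congr 1
          ring
    have hZN : N ^ (δ / 2) ≤ Y / ((r : ℝ) * q) := by
      rw [le_div_iff₀ (by positivity)]
      calc N ^ (δ / 2) * ((r : ℝ) * q) ≤ N ^ (δ / 2) * N ^ (δ / 2) :=
            mul_le_mul_of_nonneg_left hrq (by positivity)
        _ = N ^ δ := by
          rw [← Real.rpow_add hN0]
          congr 1
          ring
        _ ≤ N ^ (1 / (p : ℝ) + δ) := Real.rpow_le_rpow_of_exponent_le hN1 (by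
          have : 0 < 1 / (p : ℝ) := by positivity
          linarith)
        _ ≤ Y := hY1
    have hZ0 : (N / (q : ℝ) ^ 2) ^ (δ / 2) ≤ Y / ((r : ℝ) * q) :=
      (Real.rpow_le_rpow (by positivity) hMN (by positivity)).trans hZN
    have hZ1 : 1 ≤ Y / ((r : ℝ) * q) := (Real.one_le_rpow hN1 (by positivity)).trans hZN
    have hZM : Y / ((r : ℝ) * q) ≤ N / (q : ℝ) ^ 2 := by
      have hr1' : (1 : ℝ) ≤ r := by exact_mod_cast hr1
      calc Y / ((r : ℝ) * q) ≤ Y := div_le_self hY0.le (by nlinarith)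
        _ ≤ N ^ ((2 : ℝ) / 5) := hY25
        _ ≤ N ^ (1 / 2 : ℝ) := Real.rpow_le_rpow_of_exponent_le hN1 (by norm_num)
        _ ≤ N / (q : ℝ) ^ 2 := hM
    -- the coefficient
    have hcoe : ((r * q ^ (p - 2) : ℕ) : ℝ) ≤ (N / (q : ℝ) ^ 2) ^ c₁ := by
      have hcc : c ≤ c₁ / (2 * p) := (min_le_right _ _).trans (min_le_right _ _)
      have hp2 : ((p - 2 : ℕ) : ℝ) = p - 2 := by
        rw [Nat.cast_sub (by omega)]
        norm_num
      have hp5' : (5 : ℝ) ≤ p := by exact_mod_cast hp5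
      have h1 : (q : ℝ) ^ (p - 2) ≤ N ^ (c₁ / 2 - c₁ / p) := by
        calc (q : ℝ) ^ (p - 2) ≤ (N ^ c) ^ (p - 2) := pow_le_pow_left₀ hq0.le hqc _
          _ = N ^ (c * (p - 2)) := by rw [← Real.rpow_natCast, ← Real.rpow_mul hN0.le, hp2]
          _ ≤ N ^ (c₁ / 2 - c₁ / p) := by
            refine Real.rpow_le_rpow_of_exponent_le hN1 ?_
            calc c * ((p : ℝ) - 2) ≤ c₁ / (2 * p) * ((p : ℝ) - 2) :=
                  mul_le_mul_of_nonneg_right hcc (by linarith)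
              _ = c₁ / 2 - c₁ / p := by field_simp
      push_cast
      calc (r : ℝ) * (q : ℝ) ^ (p - 2) ≤ N ^ (c₁ / p) * N ^ (c₁ / 2 - c₁ / p) :=
            mul_le_mul (hr2.trans (hN₇ N hNN₇)) h1 (by positivity) (by positivity)
        _ = (N ^ (1 / 2 : ℝ)) ^ c₁ := by
          rw [← Real.rpow_add hN0, ← Real.rpow_mul hN0.le]
          congr 1
          ring
        _ ≤ (N / (q : ℝ) ^ 2) ^ c₁ := Real.rpow_le_rpow (by positivity) hM hc₁.le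
    have hVM : VV p N r (Y / r) ≤ N / (q : ℝ) ^ 2 := by
      refine g5.trans (le_trans ?_ hM)
      calc 2 * N ^ (1 / 2 - 2 * δ) ≤ N ^ (2 * δ) * N ^ (1 / 2 - 2 * δ) :=
            mul_le_mul_of_nonneg_right (hN₆ N hNN₆) (by positivity)
        _ = N ^ (1 / 2 : ℝ) := by
          rw [← Real.rpow_add hN0]
          congr 1
          ring
    have hVV := (hQP1 p N Y r q hp5 hN0 hY0 hr1 hi4.one_lt.le).2
    have hc1 : 1 ≤ r * q ^ (p - 2) := Nat.mul_pos hr1 (pow_pos hi4.pos _)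
    obtain ⟨Cf, hCf, hfin⟩ := hM1 1 one_pos
    refine ⟨(hfin (N / (q : ℝ) ^ 2) (Y / ((r : ℝ) * q)) (r * q ^ (p - 2)) r 1 hM1' hZ1 hc1 hr1 le_rfl
      (dvd_mul_right r _)).1, ?_⟩
    have hmain := hMU (N / (q : ℝ) ^ 2) (Y / ((r : ℝ) * q)) (r * q ^ (p - 2)) r 1 ((hN₅ N hNN₅).trans hM)
      hZ0 hZM hc1 hcoe hr1 (dvd_mul_right r _) (Or.inl rfl) (by rw [Nat.cast_one]; exact hM1')
      (by
        rw [hVV]
        exact (Real.rpow_le_rpow (by positivity) hMN (by positivity)).trans g4)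
      (by rw [hVV]; exact hVM)
    refine hmain.trans ?_
    rw [hVV]
    have h7 := (hQP1 p N Y r q hp5 hN0 hY0 hr1 hi4.one_lt.le).1
    have h8 : Y / ((r : ℝ) * q) * VV p N r (Y / r) ≤ 2 * Y * N ^ (1 / 2 - 2 * δ) * (1 / (r : ℝ) ^ 2) := by
      have hle : Y / ((r : ℝ) * q) ≤ Y / r := by
        rw [← div_div]
        exact div_le_self (by positivity) hq1
      calc Y / ((r : ℝ) * q) * VV p N r (Y / r) ≤ Y / r * (2 * √(Y ^ p / N) / r) :=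
            mul_le_mul hle h7 (Real.sqrt_nonneg _) (by positivity)
        _ ≤ Y / r * (2 * N ^ (1 / 2 - 2 * δ) / r) := by
            refine mul_le_mul_of_nonneg_left ?_ (by positivity)
            exact div_le_div_of_nonneg_right (by linarith) hr0.le
        _ = 2 * Y * N ^ (1 / 2 - 2 * δ) * (1 / (r : ℝ) ^ 2) := by
            field_simp
    have h9 : C₀ * (Y / ((r : ℝ) * q) * √(N / (q : ℝ) ^ 2) / (r * ((1 : ℕ) : ℝ) ^ 2)) =
        C₀ * (Y * √N) * (1 / (r : ℝ) ^ 2) * (1 / (q : ℝ) ^ 2) := by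
      rw [Real.sqrt_div hN0.le, Real.sqrt_sq hq0.le]
      push_cast
      field_simp
    rw [h9, hB]
    simp only
    have h10 : (N / (q : ℝ) ^ 2) ^ (δ / 2) ≤ N ^ (δ / 2) := Real.rpow_le_rpow (by positivity) hMN (by positivity)
    have h11 : (N / (q : ℝ) ^ 2) ^ (δ / 2) * (Y / ((r : ℝ) * q) * VV p N r (Y / r)) ≤
        N ^ (δ / 2) * (2 * Y * N ^ (1 / 2 - 2 * δ) * (1 / (r : ℝ) ^ 2)) :=
      mul_le_mul h10 h8 (mul_nonneg (by positivity) (Real.sqrt_nonneg _)) (by positivity)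
    linarith
  · -- the covering
    rintro ⟨r, z, y, x⟩ ⟨hbas, hrP, q, hq, hwq, hqr, hqc, hqz, hqd⟩
    simp only at hrP hqr hqc hqz hqd
    have hP0 : PP w ≠ 0 := by
      unfold PP
      refine Finset.prod_ne_zero_iff.2 fun q' hq' => ?_
      unfold pr at hq'
      exact (Finset.mem_filter.1 hq').2.ne_zero
    obtain ⟨z', x', -, hz, hx, hms⟩ := hQA3 p N Y r z y q x hp5 hbas hq hqr hqz hqd
    refine ⟨(r, q), ?_, (z', y, x'), hms, ?_⟩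
    · rw [Finset.mem_product, Finset.mem_filter, Finset.mem_Ioc]
      exact ⟨Nat.mem_divisors.2 ⟨hrP, hP0⟩, ⟨hwq, Nat.le_floor hqc⟩, hq⟩
    · rw [hz, hx]

end Pool.Agent.AP
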