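import Pool.Agent.helper82.AP.QS1

set_option autoImplicit false

/-!
# Row ap:QT1 (MP_16912e_nt): the tail `w < r ≤ N^c`
-/

namespace Pool.Agent.AP

open Finset NumberField Pool.Agent.helper3.FT Pool.Agent.helper47.RA Pool.Agent.T5

theorem QT1 (hQCN : QCN_stmt) (hQSM : QSM_stmt) (hQA1 : QA1_stmt) (hQP1 : QP1_stmt) (hQP2 : QP2_stmt) :
    QT1_stmt := by
  intro p _ hp5 hM1 hM2 δ hδ
  obtain ⟨c₁, C₀, N₁, hc₁, hC₀, hMU⟩ := hM2 (δ / 2) (by positivity) (δ / 2) (by positivity)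
  refine ⟨min c₁ (δ / 2), C₀, by positivity, hC₀, ?_⟩
  intro w hw ε hε
  set c : ℝ := min c₁ (δ / 2) with hc
  have hc0 : 0 < c := by positivity
  have hcc : c ≤ c₁ := min_le_left _ _
  have hcδ : c ≤ δ / 2 := min_le_right _ _
  obtain ⟨N₂, -, hN₂⟩ := QEV δ 4 ε hδ hε
  refine ⟨max (max N₁ N₂) 4, fun N Y hN hY1 hY2 => ?_⟩
  simp only [max_le_iff] at hN
  obtain ⟨⟨hNN₁, hNN₂⟩, hN4⟩ := hN
  have hN1 : 1 ≤ N := by linarith
  have hN0 : 0 < N := by linarith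
  obtain ⟨hY, -, hY25, hsq, hr⟩ := hQP2 p δ N Y hp5 hδ hN1 hY1 hY2
  have hY0 : 0 < Y := by linarith
  have hcR : (0 : ℝ) ≤ N ^ c := by positivity
  have hw1 : 1 ≤ w := by omega
  have hhalf : N ^ (1 / 2 : ℝ) = √N := (Real.sqrt_eq_rpow N).symm
  set W : ℝ := N ^ (δ / 2) * (2 * Y * N ^ (1 / 2 - 2 * δ)) with hW
  have hW0 : 0 ≤ W := by positivity
  have key := hQCN Q4 (ℕ × ℕ × ℤ) ℕ {t : Q4 | Bas p N Y t ∧ w < t.1 ∧ (t.1 : ℝ) ≤ N ^ c}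
    (Ioc w ⌊N ^ c⌋₊) (fun r => {t : ℕ × ℕ × ℤ | MS p N r r 1 (Y / r) t})
    (fun r t => (r, t.1, t.2.1, t.2.2)) (fun r => (C₀ * (Y * √N) + W) * (1 / (r : ℝ) ^ 2)) ?_ ?_
  · refine key.2.trans ?_
    rw [← Finset.mul_sum]
    have h1 := hQSM.1 w ⌊N ^ c⌋₊ hw1
    have h2 : ∑ k ∈ Ioc w ⌊N ^ c⌋₊, 1 / (k : ℝ) ^ 2 ≤ 2 :=
      (Finset.sum_le_sum_of_subset_of_nonneg (Finset.Ioc_subset_Ioc_left (Nat.zero_le w))
        fun _ _ _ => by positivity).trans (hQSM.2.1 ⌊N ^ c⌋₊)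
    have h3 : W * 2 ≤ 4 * N ^ (-δ) * (Y * √N) := by
      have h3 : N ^ (δ / 2) * N ^ (1 / 2 - 2 * δ) ≤ N ^ (-δ) * √N := by
        rw [← hhalf, ← Real.rpow_add hN0, ← Real.rpow_add hN0]
        exact Real.rpow_le_rpow_of_exponent_le hN1 (by linarith)
      calc W * 2 = 4 * Y * (N ^ (δ / 2) * N ^ (1 / 2 - 2 * δ)) := by rw [hW]; ring
        _ ≤ 4 * Y * (N ^ (-δ) * √N) := mul_le_mul_of_nonneg_left h3 (by positivity)
        _ = 4 * N ^ (-δ) * (Y * √N) := by ring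
    have h4 : 4 * N ^ (-δ) * (Y * √N) ≤ ε * (Y * √N) :=
      mul_le_mul_of_nonneg_right (hN₂ N hNN₂) (by positivity)
    calc (C₀ * (Y * √N) + W) * ∑ k ∈ Ioc w ⌊N ^ c⌋₊, 1 / (k : ℝ) ^ 2
        = C₀ * (Y * √N) * (∑ k ∈ Ioc w ⌊N ^ c⌋₊, 1 / (k : ℝ) ^ 2) +
          W * ∑ k ∈ Ioc w ⌊N ^ c⌋₊, 1 / (k : ℝ) ^ 2 := by ring
      _ ≤ C₀ * (Y * √N) * (1 / w) + W * 2 :=
          add_le_add (mul_le_mul_of_nonneg_left h1 (by positivity)) (mul_le_mul_of_nonneg_left h2 hW0)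
      _ ≤ C₀ * (Y * √N) * (1 / w) + ε * (Y * √N) := by linarith
      _ = (C₀ / w + ε) * (Y * √N) := by ring
  · -- finiteness and the bound
    intro r hi
    rw [Finset.mem_Ioc] at hi
    obtain ⟨hi2, hi3⟩ := hi
    have hr1 : 1 ≤ r := by omega
    have hr0 : (0 : ℝ) < r := by exact_mod_cast hr1
    have hrc : (r : ℝ) ≤ N ^ c := (Nat.le_floor_iff hcR).1 hi3
    obtain ⟨g1, g2, g3, g4, g5⟩ := hr r hr1 (hrc.trans (Real.rpow_le_rpow_of_exponent_le hN1 hcδ))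
    have hZ1 : 1 ≤ Y / r := (Real.one_le_rpow hN1 (by positivity)).trans g2
    obtain ⟨Cf, hCf, hfin⟩ := hM1 1 one_pos
    have hVN : VV p N r (Y / r) ≤ N := by
      refine g5.trans ?_
      have h5 : N ^ (1 / 2 - 2 * δ) ≤ √N := by
        rw [← hhalf]
        exact Real.rpow_le_rpow_of_exponent_le hN1 (by linarith)
      have h6 : 2 ≤ √N := by
        rw [Real.le_sqrt (by norm_num) hN0.le]
        linarith
      calc 2 * N ^ (1 / 2 - 2 * δ) ≤ √N * √N := mul_le_mul h6 h5 (by positivity) (by positivity)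
        _ = N := Real.mul_self_sqrt hN0.le
    refine ⟨(hfin N (Y / r) r r 1 hN1 hZ1 hr1 hr1 le_rfl (dvd_refl r)).1, ?_⟩
    refine (hMU N (Y / r) r r 1 hNN₁ g2 g3 hr1 (hrc.trans (Real.rpow_le_rpow_of_exponent_le hN1 hcc)) hr1
      (dvd_refl r) (Or.inl rfl) (by rw [Nat.cast_one]; exact hN1) g4 hVN).trans ?_
    have h7 := (hQP1 p N Y r 1 hp5 hN0 hY0 hr1 le_rfl).1
    have h8 : Y / r * VV p N r (Y / r) ≤ 2 * Y * N ^ (1 / 2 - 2 * δ) * (1 / (r : ℝ) ^ 2) := by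
      calc Y / r * VV p N r (Y / r) ≤ Y / r * (2 * √(Y ^ p / N) / r) :=
            mul_le_mul_of_nonneg_left h7 (by positivity)
        _ ≤ Y / r * (2 * N ^ (1 / 2 - 2 * δ) / r) := by
            refine mul_le_mul_of_nonneg_left ?_ (by positivity)
            exact div_le_div_of_nonneg_right (by linarith) hr0.le
        _ = 2 * Y * N ^ (1 / 2 - 2 * δ) * (1 / (r : ℝ) ^ 2) := by
            field_simp
    have h9 : C₀ * (Y / r * √N / (r * ((1 : ℕ) : ℝ) ^ 2)) = C₀ * (Y * √N) * (1 / (r : ℝ) ^ 2) := by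
      push_cast
      field_simp
    rw [h9]
    have h10 := mul_le_mul_of_nonneg_left h8 (Real.rpow_nonneg hN0.le (δ / 2))
    have h11 : (C₀ * (Y * √N) + W) * (1 / (r : ℝ) ^ 2) = C₀ * (Y * √N) * (1 / (r : ℝ) ^ 2) +
        N ^ (δ / 2) * (2 * Y * N ^ (1 / 2 - 2 * δ) * (1 / (r : ℝ) ^ 2)) := by
      rw [hW]
      ring
    rw [h11]
    linarith
  · -- the covering
    rintro ⟨r, z, y, x⟩ ⟨hbas, hwr, hrc⟩
    simp only at hwr hrc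
    obtain ⟨-, -, -, hms⟩ := hQA1 p N Y r z y x hp5 hbas
    exact ⟨r, Finset.mem_Ioc.2 ⟨hwr, Nat.le_floor hrc⟩, (z, y, x), hms, rfl⟩

end Pool.Agent.AP
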