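import Pool.Agent.helper82.AP.QS1

set_option autoImplicit false

/-!
# Row ap:QT2 (MP_16912e_nt): the tail `r > N^c`
-/

namespace Pool.Agent.AP

open Finset NumberField Pool.Agent.helper3.FT Pool.Agent.helper47.RA Pool.Agent.T5

theorem QT2 (hQCN : QCN_stmt) (hQSM : QSM_stmt) (hQA1 : QA1_stmt) (hQP1 : QP1_stmt) (hQP2 : QP2_stmt) :
    QT2_stmt := by
  intro p _ hp5 hM1 δ c ε hδ hc hε
  set e : ℝ := min c δ / 4 with he
  have he0 : 0 < e := by positivity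
  have hec : e ≤ c / 4 := by
    rw [he]
    linarith [min_le_left c δ]
  have heδ : e ≤ δ / 4 := by
    rw [he]
    linarith [min_le_right c δ]
  obtain ⟨C, hC, hM⟩ := hM1 e he0
  obtain ⟨N₂, -, hN₂⟩ := QEV (c / 2) (2 * C) (ε / 2) (by positivity) (by positivity)
  obtain ⟨N₃, -, hN₃⟩ := QEV (3 * δ / 2) (4 * C) (ε / 2) (by positivity) (by positivity)
  refine ⟨max (max N₂ N₃) 1, fun N Y hN hY1 hY2 => ?_⟩
  simp only [max_le_iff] at hN
  obtain ⟨⟨hNN₂, hNN₃⟩, hN1⟩ := hN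
  have hN0 : 0 < N := by linarith
  obtain ⟨hY, -, hY25, hsq, hr⟩ := hQP2 p δ N Y hp5 hδ hN1 hY1 hY2
  have hY0 : 0 < Y := by linarith
  have hcR : (0 : ℝ) ≤ N ^ c := by positivity
  have hhalf : N ^ (1 / 2 : ℝ) = √N := (Real.sqrt_eq_rpow N).symm
  have hYN : Y ≤ N := by
    calc Y ≤ N ^ ((2 : ℝ) / 5) := hY25
      _ ≤ N ^ (1 : ℝ) := Real.rpow_le_rpow_of_exponent_le hN1 (by norm_num)
      _ = N := Real.rpow_one N
  have hNY : (N * Y) ^ e ≤ N ^ (2 * e) := by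
    calc (N * Y) ^ e ≤ (N * N) ^ e :=
          Real.rpow_le_rpow (by positivity) (mul_le_mul_of_nonneg_left hYN hN0.le) he0.le
      _ = N ^ (2 * e) := by
        rw [← pow_two, ← Real.rpow_natCast, ← Real.rpow_mul hN0.le]
        norm_num
  set X : ℝ := C * N ^ (2 * e) * (Y * √N) with hX
  set W : ℝ := C * N ^ (2 * e) * (2 * Y * N ^ (1 / 2 - 2 * δ)) with hW
  have hX0 : 0 ≤ X := by positivity
  have hW0 : 0 ≤ W := by positivity
  have key := hQCN Q4 (ℕ × ℕ × ℤ) ℕ {t : Q4 | Bas p N Y t ∧ N ^ c < t.1}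
    (Ioc ⌊N ^ c⌋₊ ⌊Y⌋₊) (fun r => {t : ℕ × ℕ × ℤ | MS p N r r 1 (Y / r) t})
    (fun r t => (r, t.1, t.2.1, t.2.2)) (fun r => (X + W) * (1 / (r : ℝ) ^ 2)) ?_ ?_
  · refine key.2.trans ?_
    rw [← Finset.mul_sum]
    have h1 := hQSM.2.2.1 (N ^ c) ⌊Y⌋₊ (Real.one_le_rpow hN1 hc.le)
    have h2 : ∑ k ∈ Ioc ⌊N ^ c⌋₊ ⌊Y⌋₊, 1 / (k : ℝ) ^ 2 ≤ 2 :=
      (Finset.sum_le_sum_of_subset_of_nonneg (Finset.Ioc_subset_Ioc_left (Nat.zero_le _))
        fun _ _ _ => by positivity).trans (hQSM.2.1 ⌊Y⌋₊)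
    have h3 : W * 2 ≤ ε / 2 * (Y * √N) := by
      have h3 : N ^ (2 * e) * N ^ (1 / 2 - 2 * δ) ≤ N ^ (-(3 * δ / 2)) * √N := by
        rw [← hhalf, ← Real.rpow_add hN0, ← Real.rpow_add hN0]
        exact Real.rpow_le_rpow_of_exponent_le hN1 (by linarith)
      calc W * 2 = 4 * C * Y * (N ^ (2 * e) * N ^ (1 / 2 - 2 * δ)) := by rw [hW]; ring
        _ ≤ 4 * C * Y * (N ^ (-(3 * δ / 2)) * √N) := mul_le_mul_of_nonneg_left h3 (by positivity)
        _ = 4 * C * N ^ (-(3 * δ / 2)) * (Y * √N) := by ring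
        _ ≤ ε / 2 * (Y * √N) := mul_le_mul_of_nonneg_right (hN₃ N hNN₃) (by positivity)
    have h4 : X * (2 / N ^ c) ≤ ε / 2 * (Y * √N) := by
      have h5 : N ^ (2 * e) * (2 / N ^ c) ≤ 2 * N ^ (-(c / 2)) := by
        have h6 : (2 : ℝ) / N ^ c = 2 * N ^ (-c) := by
          rw [Real.rpow_neg hN0.le]
          ring
        rw [h6]
        calc N ^ (2 * e) * (2 * N ^ (-c)) = 2 * (N ^ (2 * e) * N ^ (-c)) := by ring
          _ ≤ 2 * N ^ (-(c / 2)) := by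
            rw [← Real.rpow_add hN0]
            exact mul_le_mul_of_nonneg_left (Real.rpow_le_rpow_of_exponent_le hN1 (by linarith)) (by norm_num)
      calc X * (2 / N ^ c) = C * (Y * √N) * (N ^ (2 * e) * (2 / N ^ c)) := by rw [hX]; ring
        _ ≤ C * (Y * √N) * (2 * N ^ (-(c / 2))) := mul_le_mul_of_nonneg_left h5 (by positivity)
        _ = 2 * C * N ^ (-(c / 2)) * (Y * √N) := by ring
        _ ≤ ε / 2 * (Y * √N) := mul_le_mul_of_nonneg_right (hN₂ N hNN₂) (by positivity)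
    calc (X + W) * ∑ k ∈ Ioc ⌊N ^ c⌋₊ ⌊Y⌋₊, 1 / (k : ℝ) ^ 2
        = X * (∑ k ∈ Ioc ⌊N ^ c⌋₊ ⌊Y⌋₊, 1 / (k : ℝ) ^ 2) +
          W * ∑ k ∈ Ioc ⌊N ^ c⌋₊ ⌊Y⌋₊, 1 / (k : ℝ) ^ 2 := by ring
      _ ≤ X * (2 / N ^ c) + W * 2 :=
          add_le_add (mul_le_mul_of_nonneg_left h1 hX0) (mul_le_mul_of_nonneg_left h2 hW0)
      _ ≤ ε * (Y * √N) := by linarith
  · -- finiteness and the bound
    intro r hi
    rw [Finset.mem_Ioc] at hi
    obtain ⟨hi2, hi3⟩ := hi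
    have hr1 : 1 ≤ r := by omega
    have hr0 : (0 : ℝ) < r := by exact_mod_cast hr1
    have hrY : (r : ℝ) ≤ Y := (Nat.le_floor_iff hY0.le).1 hi3
    have hZ1 : 1 ≤ Y / r := by
      rw [le_div_iff₀ hr0, one_mul]
      exact hrY
    obtain ⟨f1, f2⟩ := hM N (Y / r) r r 1 hN1 hZ1 hr1 hr1 le_rfl (dvd_refl r)
    refine ⟨f1, f2.trans ?_⟩
    have hbase : (N * (Y / r) * r * ((1 : ℕ) : ℝ)) ^ e ≤ N ^ (2 * e) := by
      have : N * (Y / r) * r * ((1 : ℕ) : ℝ) = N * Y := by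
        push_cast
        field_simp
      rw [this]
      exact hNY
    have h7 := (hQP1 p N Y r 1 hp5 hN0 hY0 hr1 le_rfl).1
    have h8 : Y / r * VV p N r (Y / r) ≤ 2 * Y * N ^ (1 / 2 - 2 * δ) * (1 / (r : ℝ) ^ 2) := by
      calc Y / r * VV p N r (Y / r) ≤ Y / r * (2 * √(Y ^ p / N) / r) :=
            mul_le_mul_of_nonneg_left h7 (by positivity)
        _ ≤ Y / r * (2 * N ^ (1 / 2 - 2 * δ) / r) := by
            refine mul_le_mul_of_nonneg_left ?_ (by positivity)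
            exact div_le_div_of_nonneg_right (by linarith) hr0.le
        _ = 2 * Y * N ^ (1 / 2 - 2 * δ) * (1 / (r : ℝ) ^ 2) := by
            field_simp
    have h9 : Y / r * √N / (r * ((1 : ℕ) : ℝ) ^ 2) = Y * √N * (1 / (r : ℝ) ^ 2) := by
      push_cast
      field_simp
    rw [h9]
    have hVV0 : 0 ≤ VV p N r (Y / r) := Real.sqrt_nonneg _
    calc C * (N * (Y / r) * r * ((1 : ℕ) : ℝ)) ^ e * (Y * √N * (1 / (r : ℝ) ^ 2) + Y / r * VV p N r (Y / r))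
        ≤ C * N ^ (2 * e) * (Y * √N * (1 / (r : ℝ) ^ 2) + 2 * Y * N ^ (1 / 2 - 2 * δ) * (1 / (r : ℝ) ^ 2)) :=
          mul_le_mul (mul_le_mul_of_nonneg_left hbase (by linarith)) (by linarith) (by positivity) (by positivity)
      _ = (X + W) * (1 / (r : ℝ) ^ 2) := by
          rw [hX, hW]
          ring
  · -- the covering
    rintro ⟨r, z, y, x⟩ ⟨hbas, hrc⟩
    simp only at hrc
    obtain ⟨-, -, -, hms⟩ := hQA1 p N Y r z y x hp5 hbas
    refine ⟨r, Finset.mem_Ioc.2 ⟨(Nat.floor_lt hcR).2 hrc, Nat.le_floor ?_⟩, (z, y, x), hms, rfl⟩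
    have h1 := hbas.Y2
    have h2 := hbas.z1
    simp only at h1 h2
    have h3 : (1 : ℝ) ≤ z := by exact_mod_cast h2
    have h4 : (0 : ℝ) ≤ r := Nat.cast_nonneg _
    nlinarith

end Pool.Agent.AP
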