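import Pool.Agent.helper94.AP.Defs

set_option autoImplicit false

/-!
# AP (MP_16912e_nt), block F: final assembly (`F1_stmt`, `F2_stmt`)

RULES. Row `ap:FXX` is a file `Pool/Agent/<seat>/AP/FXX.lean`: `import Pool.Agent.helper82.AP.SpecF`, `set_option autoImplicit false`, `namespace Pool.Agent.AP`,
`open Finset NumberField Pool.Agent.helper3.FT Pool.Agent.helper47.RA Pool.Agent.T5` (and `open scoped nonZeroDivisors`), and `theorem FXX (hFYY : FYY_stmt) .. : FXX_stmt`, whose EXACT line is in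
the lock note. Auxiliary lemmas are prefixed `FXX_`. No `convert`, `congr!`, `native_decide`, no double quotes.

Models: `Pool/Agent/helper23/T5/SC1.lean`, `Pool/Agent/helper23/T5/SC2.lean`, `Pool/Agent/helper56/T5/SC3.lean`, `Pool/Agent/helper78/T5/SCM.lean` (namespace `Pool.Agent.T5`; they may be imported).
-/

namespace Pool.Agent.AP

open Finset NumberField Pool.Agent.helper3.FT Pool.Agent.helper47.RA Pool.Agent.T5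
open scoped nonZeroDivisors

open Classical in
/-- **FC1** (short, adaptation of SC1 with `p` for `5`; `p` arbitrary).  Classes and primitive ideals.
Proof. As SC1: `b ↦ class of b` maps the union of the sets `IAp p K (Y / 2^j)`, `j < J` (disjoint, norms in `(Y / 2^J, Y]`, `Y / 2^J < 1`) onto `CLSp p K Y` (`a = (r) b`, `b` primitive, has the same class),
and it is injective if `4 Y² < -D` (`SC1_inj`, which does not mention the exponent).  Use the lemmas `SC1_cl, SC1_cl_eq, SC1_cl_eq', SC1_cl_mul, SC1_cl_pow, SC1_cl_one, SC1_span_ne, SC1_prim, SC1_inj, SC1_norm_ge` of the landed file. -/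
def FC1_stmt : Prop := ∀ (p : ℕ) (K : Type) [Field K] [NumberField K] (Q : QF K), Module.finrank ℚ K = 2 → Q.D < 0 →
  ∀ (Y : ℝ) (J : ℕ), 0 < Y → Y < 2 ^ J →
  (CLSp p K Y).ncard ≤ ∑ j ∈ range J, (IAp p K (Y / 2 ^ j)).ncard ∧
  (4 * Y ^ 2 < -(Q.D : ℝ) → (CLSp p K Y).ncard = ∑ j ∈ range J, (IAp p K (Y / 2 ^ j)).ncard)

open Classical in
/-- **FC2** (short, adaptation of SC2; from FC1 and `SFA_stmt`, third clause).  The sum over `D` (`SC2_aux` of the landed file does all the work, it does not mention the exponent). -/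
def FC2_stmt : Prop := ∀ (p : ℕ) (h : ℤ → ℝ → ℕ), (∀ (K : Type) [Field K] [NumberField K], Module.finrank ℚ K = 2 → ∀ Y : ℝ,
    h (NumberField.discr K) Y = (CLSp p K Y).ncard) →
  ∀ (N Y : ℝ) (I I' J : ℕ), 1 ≤ N → 0 < Y → N < 2 ^ I → Y < 2 ^ J → I' ≤ I → 4 * Y ^ 2 * 2 ^ I' ≤ N →
  ∑ i ∈ range I', ∑ j ∈ range J, AA p (N / 2 ^ i) (Y / 2 ^ j) ≤
      ∑ D ∈ (Icc (-⌊N⌋) (-1)).filter IsFund, (h D Y : ℝ) ∧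
  ∑ D ∈ (Icc (-⌊N⌋) (-1)).filter IsFund, (h D Y : ℝ) ≤
    ∑ i ∈ range I, ∑ j ∈ range J, AA p (N / 2 ^ i) (Y / 2 ^ j)

/-- **FC3** (medium; real analysis; adaptation of SC3: lemmas `SC3_geo, SC3_sqrt, SC3_pow, SC3_small, SC3_a, SC3_b`).
Proof. If `β - α < 2 δ` the range is empty for `N > 1` (take `N₀ = 2`): assume `2 δ ≤ β - α`, so `δ < 1/4`.  `u(i,j) = a^i 2^(-j)`, `a = 1/√2`, `T = Y √N`, `(Y/2^j) √(N/2^i) = u(i,j) T`; `U₀ = ∑ u = 2 (1 - 1/√2)⁻¹`,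
`c0 U₀ = 36/π³`.  `IN` = the indices with `2^i ≤ N^(δ/2)` and `2^j ≤ N^(δ/2)`.  There `N / 2^i ≥ N^(1-δ/2) ≥ N^(1/2)`,
`(N/2^i)^(α+δ/2) ≤ N^(α+δ/2) ≤ Y / 2^j` and `Y / 2^j ≤ Y ≤ N^(β-δ) ≤ N^((1-δ/2)(β-δ/2)) ≤ (N/2^i)^(β-δ/2)` (`(1-δ/2)(β-δ/2) ≥ β - δ` as `β ≤ 1/2`; `β - δ/2 ≥ 0`), so the first hypothesis
with `δ/2` and `ε₁` applies: `|A(N/2^i)(Y/2^j) - c0 u T| ≤ ε₁ u T` for `N` large.  `OUT`: if `N / 2^i < 1` or `Y / 2^j < 1` then `A = 0`; otherwise the second hypothesis with `δ`, with its `c`, and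
`ε₂ = min (δ/8) (c/2) / 2`, at `(N, N/2^i, Y/2^j)`: `A ≤ C N^ε₂ (u T + N^(-c) 2^(-j) T)`.  With `sa = 2^(-1/4)`, `sb = 2^(-1/2)`: `u ≤ N^(-δ/8) sa^i sb^j` (as SC3_out: `a^i = sa^i sa^i`, `2^(-j) = sb^j sb^j` and
`sa^i ≤ N^(-δ/8)` or `sb^j ≤ N^(-δ/4)`), and `N^(-c) 2^(-j) ≤ N^(-c/2) (2^(-c/2))^i sb^j` as `2^i ≤ N`.  So the sum over `OUT` is at most
`C (N^(ε₂ - δ/8) V₀ + N^(ε₂ - c/2) V₁) T`, `V₀, V₁` the sums of the geometric series, and this is `≤ (ε/2) T` for large `N`.  Upper bound: `c0 U₀ + ε₁ U₀ + ε/2`, `ε₁ U₀ = ε/2`.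
Lower bound: `I' = n₀` fixed with `(∑_{i<n₀} a^i)(∑_{j<n₀} 2^(-j)) ≥ U₀ - ε/(2 c0)`; `4 Y² 2^n₀ ≤ N` as `Y² ≤ N^(2β-2δ) ≤ N^(1-2δ)` and `4 · 2^n₀ ≤ N^(2δ)` for large `N`; `J₀ = n₀`. -/
def FC3_stmt : Prop := ∀ α β : ℝ, 0 < α → α < β → β ≤ 1 / 2 → ∀ A : ℝ → ℝ → ℝ,
  (∀ N Y, 0 ≤ A N Y) → (∀ N Y, N < 1 → A N Y = 0) → (∀ N Y, Y < 1 → A N Y = 0) →
  (∀ δ : ℝ, 0 < δ → ∀ ε : ℝ, 0 < ε → ∃ N₀ : ℝ, ∀ N Y : ℝ, N₀ ≤ N → N ^ (α + δ) ≤ Y → Y ≤ N ^ (β - δ) →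
    |A N Y - c0 * (Y * √N)| ≤ ε * (Y * √N)) →
  (∀ δ : ℝ, 0 < δ → ∃ c : ℝ, 0 < c ∧ ∀ ε : ℝ, 0 < ε → ∃ C : ℝ, 1 ≤ C ∧ ∀ N M Y : ℝ, 1 ≤ M → M ≤ N →
    1 ≤ Y → Y ≤ N ^ (β - δ) → A M Y ≤ C * N ^ ε * (Y * √M + N ^ (-c) * (Y * √N))) →
  ∀ δ : ℝ, 0 < δ → ∀ ε : ℝ, 0 < ε → ∃ N₀ : ℝ, 1 ≤ N₀ ∧ ∀ N Y : ℝ, N₀ ≤ N → N ^ (α + δ) ≤ Y → Y ≤ N ^ (β - δ) →
    ∃ I' J₀ : ℕ, 4 * Y ^ 2 * 2 ^ I' ≤ N ∧ ∀ I J : ℕ, J₀ ≤ J →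
      ∑ i ∈ range I, ∑ j ∈ range J, A (N / 2 ^ i) (Y / 2 ^ j) ≤ (36 / Real.pi ^ 3 + ε) * (Y * √N) ∧
      (36 / Real.pi ^ 3 - ε) * (Y * √N) ≤ ∑ i ∈ range I', ∑ j ∈ range J, A (N / 2 ^ i) (Y / 2 ^ j)

/-- **FUB** (short). `U_stmt` gives `UB_stmt 5 β` for every `β ≤ 1`.
Proof. `AA 5 M Y = ∑ D ∈ DN M, cA D Y` (`cAp 5 D Y = cA D Y` by `rfl`; if `rfl` is slow, unfold both).  Take `c = 1` and `C` of `U_stmt` at `ε / 2`: `AA 5 M Y ≤ C (M Y)^(ε/2) (Y √M)`, `M ≤ N`, `Y ≤ N^(β-δ) ≤ N` (`N ≥ 1`, `β - δ ≤ 1`), so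
`(M Y)^(ε/2) ≤ (N²)^(ε/2) = N^ε`, and the second term on the right of `UB_stmt` is `≥ 0`. -/
def FUB_stmt : Prop := U_stmt → ∀ β : ℝ, β ≤ 1 → UB_stmt 5 β

/-- **FSL** (short). The two ranges for `p = 5`.
Proof. Given `δ, ε`: `δ₁ = min δ (1/100)`, `δ₂ = min δ (1/10)`, `N₀` = the maximum of `1` and of the `N₀` of `SLP_stmt 5 (2/5)` at `δ₁, ε`, of `SLU_stmt δ₂` at `ε` and of `SLL_stmt δ₂` at `ε`.  If `Y ≤ N^(2/5 - δ₁)`: the first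
(`N^(1/5 + δ₁) ≤ N^(1/5 + δ) ≤ Y`).  Otherwise `Y > N^(2/5 - δ₁) ≥ N^(0.39)` and `Y ≤ N^(1/2 - δ) ≤ N^(1/2 - δ₂)`: the second and the third, as in SCM.  `((5 : ℕ) : ℝ) = 5` by `norm_num`. -/
def FSL_stmt : Prop := (∀ δ : ℝ, 0 < δ → δ ≤ 1 / 10 → SLU_stmt δ) → (∀ δ : ℝ, 0 < δ → δ ≤ 1 / 10 → SLL_stmt δ) →
  SLP_stmt 5 (2 / 5) → SLP_stmt 5 (1 / 2)

end Pool.Agent.AP
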